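import Mathlib
import Pool.Agent.H10.SF.C

/-!
Definitions for Hamiltonian graphs without an induced subdivided star.
-/

namespace Pool.Agent.H10.SD

open Equiv Equiv.Perm

/-- No induced star `K_{1,p+1}` with one edge subdivided: centre `a`, leaves `F` (`p` of them),
path `a - e - b`. -/
def SdFree {V : Type} (p : ℕ) (G : SimpleGraph V) : Prop :=
  ∀ a e b, ∀ F : Finset V, G.Adj a e → G.Adj e b → a ≠ b → ¬ G.Adj a b → F.card = p →
    (∀ f ∈ F, G.Adj a f ∧ f ≠ e ∧ ¬ G.Adj e f ∧ ¬ G.Adj b f) →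
    (∀ f ∈ F, ∀ f' ∈ F, ¬ G.Adj f f') → False

theorem SdFree.lt {V : Type} {p : ℕ} {G : SimpleGraph V} (h : SdFree p G) (a e b : V)
    (F : Finset V) (h1 : G.Adj a e) (h2 : G.Adj e b) (h3 : a ≠ b) (h4 : ¬ G.Adj a b)
    (h5 : ∀ f ∈ F, G.Adj a f ∧ f ≠ e ∧ ¬ G.Adj e f ∧ ¬ G.Adj b f)
    (h6 : ∀ f ∈ F, ∀ f' ∈ F, ¬ G.Adj f f') : F.card < p := by
  by_contra hcon
  push Not at hcon
  obtain ⟨F', hF', hc⟩ := Finset.exists_subset_card_eq hcon
  exact h a e b F' h1 h2 h3 h4 hc (fun f hf => h5 f (hF' hf))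
    (fun f hf f' hf' => h6 f (hF' hf) f' (hF' hf'))

/-- No exchange of two arcs `x -> s x`, `y -> s y` of the cyclic permutation `s`. -/
def SwapFree {V : Type} (G : SimpleGraph V) (s : Perm V) : Prop :=
  ∀ x y, y ≠ x → y ≠ s x → y ≠ s (s x) → x ≠ s y → x ≠ s (s y) →
    G.Adj x (s y) → G.Adj y (s x) → False

end Pool.Agent.H10.SD
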