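import Mathlib
import Pool.Agent.H52.TwoFacMain

/-!
A gap structure with all sets `P v` of size between `k` and `2 * k`.
-/

set_option linter.unusedSectionVars false

namespace Pool.Agent.H10.SD

open H52TF

variable {V : Type} [Fintype V] [DecidableEq V]

theorem exists_gapStr_aux2 (k : ℕ) : ∀ M : ℕ, ∀ (X : Type) [Fintype X] [DecidableEq X]
    (S : GapStr (Option X)),
    (∀ v, none ∈ S.P v → v = none ∨ S.next v = none) →
    Odd (Fintype.card (Option X)) →
    (∀ v, (S.Q v).card < k) →
    (∀ v, (S.P v).card + (S.Q v).card ≤ 2 * k) →
    (∑ v, 3 ^ (2 * k - ((S.P v).card + (S.Q v).card)) ≤ M) →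
    ∃ (Y : Type) (_ : Fintype Y) (_ : DecidableEq Y) (S' : GapStr (Option Y)),
      (∀ v, none ∈ S'.P v → v = none ∨ S'.next v = none) ∧
      Odd (Fintype.card (Option Y)) ∧
      (∀ v, k ≤ (S'.P v).card) ∧ (∀ v, (S'.P v).card ≤ 2 * k) := by
  intro M
  induction M using Nat.strong_induction_on with
  | _ M ih =>
    intro X _ _ S hdeg hodd hQ hPQ hsum
    by_cases hall : ∀ v, k ≤ (S.P v).card
    · refine ⟨X, inferInstance, inferInstance, S, hdeg, hodd, hall, ?_⟩
      intro v
      have := hPQ v
      omega
    · push Not at hall
      obtain ⟨v0, hv0⟩ := hall
      have hcardP : ∀ v, ((S.refine v0).P (some (some v))).card =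
          if v = v0 then (S.P v).card + 1 else (S.P v).card := by
        intro v
        change (if v = v0 then insert none ((S.P v).map (emb _)) else (S.P v).map (emb _)).card = _
        split_ifs with h
        · rw [Finset.card_insert_of_notMem (none_notMem_map_emb _), Finset.card_map]
        · rw [Finset.card_map]
      have hcardP0 : ((S.refine v0).P none).card = (S.Q v0).card + 2 := by
        change (insert none (insert (some none) ((S.Q v0).map (emb _)))).card = _
        rw [Finset.card_insert_of_notMem, Finset.card_insert_of_notMem, Finset.card_map]
        · exact some_none_notMem_map_emb _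
        · rw [Finset.mem_insert]
          rintro (h | h)
          · exact absurd h (by simp)
          · exact none_notMem_map_emb _ h
      have hcardP1 : ((S.refine v0).P (some none)).card = (S.P v0).card + 1 := by
        change (insert (some none) ((S.P v0).map (emb _))).card = _
        rw [Finset.card_insert_of_notMem (some_none_notMem_map_emb _), Finset.card_map]
      have hcardQ : ∀ v, ((S.refine v0).Q (some (some v))).card = (S.Q v).card := by
        intro v
        change ((S.Q v).map (emb _)).card = _
        rw [Finset.card_map]
      have hcardQ0 : ((S.refine v0).Q none).card = (S.P v0).card := by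
        change ((S.P v0).map (emb _)).card = _
        rw [Finset.card_map]
      have hcardQ1 : ((S.refine v0).Q (some none)).card = (S.Q v0).card := by
        change ((S.Q v0).map (emb _)).card = _
        rw [Finset.card_map]
      have hq0 := hQ v0
      set p := (S.P v0).card with hp
      set q := (S.Q v0).card with hq
      obtain ⟨t, ht⟩ : ∃ t, 2 * k = (p + q) + (t + 2) := ⟨2 * k - (p + q) - 2, by omega⟩
      -- the new weight
      have hnew : ∑ v, 3 ^ (2 * k - (((S.refine v0).P v).card + ((S.refine v0).Q v).card)) +
          2 * 3 ^ t = ∑ v, 3 ^ (2 * k - ((S.P v).card + (S.Q v).card)) := by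
        rw [Fintype.sum_option (α := Option (Option X)), Fintype.sum_option (α := Option X)]
        rw [hcardP0, hcardQ0, hcardP1, hcardQ1]
        rw [← Finset.add_sum_erase Finset.univ
          (fun v => 3 ^ (2 * k - (((S.refine v0).P (some (some v))).card +
            ((S.refine v0).Q (some (some v))).card))) (Finset.mem_univ v0)]
        rw [← Finset.add_sum_erase Finset.univ
          (fun v => 3 ^ (2 * k - ((S.P v).card + (S.Q v).card))) (Finset.mem_univ v0)]
        have hrest : ∑ v ∈ Finset.univ.erase v0,
            3 ^ (2 * k - (((S.refine v0).P (some (some v))).card +
            ((S.refine v0).Q (some (some v))).card)) =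
            ∑ v ∈ Finset.univ.erase v0, 3 ^ (2 * k - ((S.P v).card + (S.Q v).card)) := by
          apply Finset.sum_congr rfl
          intro v hv
          rw [hcardP, hcardQ, if_neg (Finset.ne_of_mem_erase hv)]
        rw [hrest]
        simp only [hcardP, hcardQ, if_true, ← hp, ← hq]
        have e1 : 2 * k - (q + 2 + p) = t := by omega
        have e2 : 2 * k - (p + 1 + q) = t + 1 := by omega
        have e3 : 2 * k - (p + q) = t + 2 := by omega
        rw [e1, e2, e3]
        ring
      have hpos : 0 < 3 ^ t := Nat.pow_pos (by norm_num)
      have hlt : ∑ v, 3 ^ (2 * k - (((S.refine v0).P v).card + ((S.refine v0).Q v).card)) < M := by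
        omega
      obtain ⟨Y, i1, i2, S', h1, h2, h3, h4⟩ := ih _ hlt (Option (Option X)) (S.refine v0)
        (by
          intro v hv
          match v, hv with
          | none, _ => left; rfl
          | some none, hv =>
            exfalso
            change none ∈ insert (some none) ((S.P v0).map (emb _)) at hv
            rw [Finset.mem_insert] at hv
            rcases hv with h | h
            · exact absurd h (by simp)
            · exact none_notMem_map_emb _ h
          | some (some v), hv =>
            change none ∈ (if v = v0 then insert none ((S.P v).map (emb _)) else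
              (S.P v).map (emb _)) at hv
            by_cases h : v = v0
            · right
              change (if v = v0 then none else some (some (S.next v))) = none
              rw [if_pos h]
            · rw [if_neg h] at hv
              exact absurd hv (none_notMem_map_emb _))
        (by
          have : Fintype.card (Option (Option (Option X))) = Fintype.card (Option X) + 2 := by
            simp
          rw [this]
          exact Odd.add_even hodd (by decide))
        (by
          intro v
          match v with
          | none => rw [hcardQ0]; exact hv0
          | some none => rw [hcardQ1]; exact hq0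
          | some (some v) => rw [hcardQ]; exact hQ v)
        (by
          intro v
          match v with
          | none => rw [hcardQ0, hcardP0]; omega
          | some none => rw [hcardQ1, hcardP1]; omega
          | some (some v) =>
            rw [hcardQ, hcardP]
            split_ifs with h
            · subst h; omega
            · exact hPQ v)
        le_rfl
      exact ⟨Y, i1, i2, S', h1, h2, h3, h4⟩

theorem exists_gapStr2 (k : ℕ) (hk : 1 ≤ k) :
    ∃ (Y : Type) (_ : Fintype Y) (_ : DecidableEq Y) (S' : GapStr (Option Y)),
      (∀ v, none ∈ S'.P v → v = none ∨ S'.next v = none) ∧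
      Odd (Fintype.card (Option Y)) ∧
      (∀ v, k ≤ (S'.P v).card) ∧ (∀ v, (S'.P v).card ≤ 2 * k) := by
  apply exists_gapStr_aux2 k (3 ^ (2 * k - 1)) Empty baseGap
  · intro v _
    left
    exact Subsingleton.elim _ _
  · simp
  · intro v
    change (∅ : Finset (Option Empty)).card < k
    rw [Finset.card_empty]
    omega
  · intro v
    change (Finset.univ : Finset (Option Empty)).card + (∅ : Finset (Option Empty)).card ≤ 2 * k
    simp
    omega
  · rw [Fintype.sum_option]
    change 3 ^ (2 * k - ((Finset.univ : Finset (Option Empty)).card +
      (∅ : Finset (Option Empty)).card)) + _ ≤ _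
    simp

end Pool.Agent.H10.SD
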