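import Mathlib
import Pool.Agent.H10.SD.Base

set_option linter.unusedSectionVars false

namespace Pool.Agent.H10.SD

open Equiv Equiv.Perm

/-- Counting: if every ordered pair of different elements of `A` is a bad pair in one of the two
orders or a near pair, and every element is in at most `q` bad pairs as second entry, then
`|A| ≤ 2 q + 3`. -/
theorem count_pairs {V : Type} [DecidableEq V] (A : Finset V) (g : V → V) (R : V → V → Prop)
    [DecidableRel R] (q : ℕ) (hR : ∀ f' ∈ A, (A.filter (fun f => R f f')).card ≤ q)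
    (h : ∀ f ∈ A, ∀ f' ∈ A, f ≠ f' → R f f' ∨ R f' f ∨ f' = g f ∨ f = g f') :
    A.card ≤ 2 * q + 3 := by
  classical
  rcases Nat.eq_zero_or_pos A.card with h0 | hpos
  · omega
  have hsub : A.offDiag ⊆ ((A.biUnion (fun f' => (A.filter (fun f => R f f')).image
      (fun f => (f, f')))) ∪ (A.biUnion (fun f' => (A.filter (fun f => R f f')).image
      (fun f => (f', f))))) ∪ (A.image (fun f => (f, g f)) ∪ A.image (fun f => (g f, f))) := by
    intro x hx
    obtain ⟨x1, x2⟩ := x
    rw [Finset.mem_offDiag] at hx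
    obtain ⟨h1, h2, h3⟩ := hx
    simp only [Finset.mem_union, Finset.mem_biUnion, Finset.mem_image, Finset.mem_filter,
      Prod.mk.injEq]
    rcases h x1 h1 x2 h2 h3 with h4 | h4 | h4 | h4
    · exact Or.inl (Or.inl ⟨x2, h2, x1, ⟨h1, h4⟩, rfl, rfl⟩)
    · exact Or.inl (Or.inr ⟨x1, h1, x2, ⟨h2, h4⟩, rfl, rfl⟩)
    · exact Or.inr (Or.inl ⟨x1, h1, rfl, h4.symm⟩)
    · exact Or.inr (Or.inr ⟨x2, h2, h4.symm, rfl⟩)
  have hc1 : (A.biUnion (fun f' => (A.filter (fun f => R f f')).image
      (fun f => (f, f')))).card ≤ A.card * q := by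
    refine Finset.card_biUnion_le_card_mul _ _ _ (fun f' hf' => ?_)
    exact le_trans Finset.card_image_le (hR f' hf')
  have hc2 : (A.biUnion (fun f' => (A.filter (fun f => R f f')).image
      (fun f => (f', f)))).card ≤ A.card * q := by
    refine Finset.card_biUnion_le_card_mul _ _ _ (fun f' hf' => ?_)
    exact le_trans Finset.card_image_le (hR f' hf')
  have hc3 : (A.image (fun f => (f, g f))).card ≤ A.card := Finset.card_image_le
  have hc4 : (A.image (fun f => (g f, f))).card ≤ A.card := Finset.card_image_le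
  have hc := Finset.card_le_card hsub
  have hu1 := Finset.card_union_le ((A.biUnion (fun f' => (A.filter (fun f => R f f')).image
      (fun f => (f, f')))) ∪ (A.biUnion (fun f' => (A.filter (fun f => R f f')).image
      (fun f => (f', f))))) (A.image (fun f => (f, g f)) ∪ A.image (fun f => (g f, f)))
  have hu2 := Finset.card_union_le (A.biUnion (fun f' => (A.filter (fun f => R f f')).image
      (fun f => (f, f')))) (A.biUnion (fun f' => (A.filter (fun f => R f f')).image
      (fun f => (f', f))))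
  have hu3 := Finset.card_union_le (A.image (fun f => (f, g f))) (A.image (fun f => (g f, f)))
  rw [Finset.offDiag_card] at hc
  have hkey : A.card * A.card ≤ A.card * (2 * q + 3) := by
    have : A.card * (2 * q + 3) = A.card * q + A.card * q + A.card + A.card + A.card := by ring
    have h5 : A.card ≤ A.card * A.card := Nat.le_mul_self _
    omega
  exact Nat.le_of_mul_le_mul_left hkey hpos

theorem succ_few {V : Type} [Fintype V] [DecidableEq V] (G : SimpleGraph V) [DecidableRel G.Adj]
    (p : ℕ) (hG : SdFree p G) (s : Perm V) (hs : ∀ x, G.Adj x (s x)) (hsw : SwapFree G s)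
    (J : Finset V) (hJ : ∀ x ∈ J, ∀ y ∈ J, ¬ G.Adj x y) (y : V) :
    (J.filter (fun f => G.Adj y f ∧ G.Adj (s y) f)).card ≤ 2 * p + 4 := by
  classical
  set A := J.filter (fun f => G.Adj y f ∧ G.Adj (s y) f) with hA
  set E : Finset V := {s (s y), s.symm y, s.symm (s.symm y)} with hE
  set A' := A \ E with hA'
  have hEc : E.card ≤ 3 := Finset.card_le_three
  have hAA : A.card ≤ A'.card + 3 := by
    have := Finset.le_card_sdiff E A
    rw [← hA'] at this
    omega
  -- membership
  have hmem : ∀ f ∈ A', f ∈ J ∧ G.Adj y f ∧ G.Adj (s y) f ∧ f ≠ s (s y) ∧ y ≠ s f ∧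
      y ≠ s (s f) := by
    intro f hf
    rw [hA', Finset.mem_sdiff, hA, Finset.mem_filter] at hf
    obtain ⟨⟨h1, h2, h3⟩, h4⟩ := hf
    rw [hE] at h4
    simp only [Finset.mem_insert, Finset.mem_singleton, not_or] at h4
    obtain ⟨h4, h5, h6⟩ := h4
    refine ⟨h1, h2, h3, h4, ?_, ?_⟩
    · intro h; apply h5; rw [h, Equiv.symm_apply_apply]
    · intro h; apply h6; rw [h, Equiv.symm_apply_apply, Equiv.symm_apply_apply]
  -- `s f` is not adjacent to `y`
  have hna : ∀ f ∈ A', ¬ G.Adj y (s f) := by
    intro f hf hadj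
    obtain ⟨h1, h2, h3, h4, h5, h6⟩ := hmem f hf
    exact hsw y f h2.ne' h3.ne' h4 h5 h6 hadj h3.symm
  -- `s f` misses less than `p` vertices of `J_y`
  have hmiss : ∀ f' ∈ A', (A'.filter (fun f => ¬ G.Adj f (s f'))).card < p := by
    intro f' hf'
    obtain ⟨h1, h2, h3, h4, h5, h6⟩ := hmem f' hf'
    refine hG.lt y f' (s f') _ h2 (hs f') h5 (hna f' hf') ?_ ?_
    · intro f hf
      rw [Finset.mem_filter] at hf
      obtain ⟨hf1, hf2⟩ := hf
      obtain ⟨g1, g2, -⟩ := hmem f hf1
      refine ⟨g2, ?_, hJ f' h1 f g1, fun h => hf2 h.symm⟩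
      rintro rfl
      exact hf2 (hs f)
    · intro f hf g hg
      rw [Finset.mem_filter] at hf hg
      exact hJ f (hmem f hf.1).1 g (hmem g hg.1).1
  rcases Nat.eq_zero_or_pos A'.card with h0 | hpos
  · omega
  obtain ⟨f0, hf0⟩ := Finset.card_pos.1 hpos
  have hp : 1 ≤ p := by
    have := hmiss f0 hf0
    omega
  have hcount := count_pairs A' (fun f => s (s f)) (fun f f' => ¬ G.Adj f (s f')) (p - 1)
    (fun f' hf' => by have := hmiss f' hf'; omega) (by
      intro f hf f' hf' hne
      by_contra hcon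
      push Not at hcon
      obtain ⟨c1, c2, c3, c4⟩ := hcon
      have hf'1 := (hmem f' hf').1
      have hf1 := (hmem f hf).1
      refine hsw f f' hne.symm ?_ c3 ?_ c4 c1 c2
      · intro h
        exact hJ f hf1 f' hf'1 (h ▸ hs f)
      · intro h
        exact hJ f' hf'1 f hf1 (h ▸ hs f'))
  omega

end Pool.Agent.H10.SD
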