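import Mathlib
import Pool.Agent.H10.SD.Base

/-!
Nearly all neighbours of the successor of `y` see nearly all neighbours of `y` in `J` (the bound for
the successor itself is a hypothesis here).
-/

set_option linter.unusedSectionVars false

namespace Pool.Agent.H10.SD

open Equiv Equiv.Perm

section

variable {V : Type} [Fintype V] [DecidableEq V] (G : SimpleGraph V) [DecidableRel G.Adj]
    (p : ℕ) (hG : SdFree p G) (s : Perm V) (hs : ∀ x, G.Adj x (s x)) (hsw : SwapFree G s)
    (J : Finset V) (hJ : ∀ x ∈ J, ∀ y ∈ J, ¬ G.Adj x y) (y : V)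
    (h1 : (J.filter (fun f => G.Adj y f ∧ G.Adj (s y) f)).card ≤ 2 * p + 4)

include hG hJ in
/-- Counting with a centre `a` and a path `a - e - b`. -/
theorem count_of (a e b d : V) (hae : G.Adj a e) (heb : G.Adj e b) (hab : a ≠ b)
    (hnab : ¬ G.Adj a b) (B : Finset V)
    (hB : ∀ f ∈ J, G.Adj y f → ¬ G.Adj d f → G.Adj e f ∨ G.Adj b f → f ∈ B) :
    (J.filter (fun f => G.Adj y f ∧ ¬ G.Adj d f)).card ≤
      (J.filter (fun f => G.Adj y f ∧ ¬ G.Adj a f)).card + B.card + p := by
  set F := J.filter (fun f => G.Adj a f ∧ f ≠ e ∧ ¬ G.Adj e f ∧ ¬ G.Adj b f) with hF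
  have hFc : F.card < p := by
    apply hG.lt a e b F hae heb hab hnab
    · intro f hf
      rw [hF, Finset.mem_filter] at hf
      exact hf.2
    · intro f hf f' hf'
      rw [hF, Finset.mem_filter] at hf hf'
      exact hJ f hf.1 f' hf'.1
  have hsub : J.filter (fun f => G.Adj y f ∧ ¬ G.Adj d f) ⊆
      (J.filter (fun f => G.Adj y f ∧ ¬ G.Adj a f)) ∪ (F ∪ (B ∪ {e})) := by
    intro f hf
    rw [Finset.mem_filter] at hf
    obtain ⟨hfJ, hyf, hdf⟩ := hf
    by_cases haf : G.Adj a f
    · rw [Finset.mem_union]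
      right
      by_cases hfe : f = e
      · simp [hfe]
      · by_cases hx : G.Adj e f ∨ G.Adj b f
        · have := hB f hfJ hyf hdf hx
          simp [this]
        · push Not at hx
          rw [Finset.mem_union]
          left
          rw [hF, Finset.mem_filter]
          exact ⟨hfJ, haf, hfe, hx.1, hx.2⟩
    · rw [Finset.mem_union]
      left
      rw [Finset.mem_filter]
      exact ⟨hfJ, hyf, haf⟩
  have h2 := Finset.card_le_card hsub
  have h3 := Finset.card_union_le (J.filter (fun f => G.Adj y f ∧ ¬ G.Adj a f)) (F ∪ (B ∪ {e}))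
  have h4 := Finset.card_union_le F (B ∪ {e})
  have h5 := Finset.card_union_le B {e}
  rw [Finset.card_singleton] at h5
  omega

theorem self_empty : (J.filter (fun f => G.Adj y f ∧ ¬ G.Adj y f)).card = 0 := by
  rw [Finset.card_eq_zero]
  apply Finset.filter_false_of_mem
  intro f _
  simp

include hG hs hJ h1 in
/-- A bad neighbour `d` of `s y` is a neighbour of `y`. -/
theorem bad_adj (d : V) (hvd : G.Adj (s y) d)
    (hd : 4 * p + 6 ≤ (J.filter (fun f => G.Adj y f ∧ ¬ G.Adj d f)).card) : G.Adj y d := by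
  by_contra hyd
  have h0 := self_empty G J y
  have hne : y ≠ d := by
    rintro rfl
    omega
  have := count_of G p hG J hJ y y (s y) d d (hs y) hvd hne hyd
    (J.filter (fun f => G.Adj y f ∧ G.Adj (s y) f)) (by
      intro f hf h2 h3 h4
      rw [Finset.mem_filter]
      rcases h4 with h4 | h4
      · exact ⟨hf, h2, h4⟩
      · exact absurd h4 h3)
  omega

include hG hs hJ h1 hsw in
/-- The successor of a bad neighbour of `s y` sees nearly all of `J_y`. -/
theorem bad_succ (d : V) (hvd : G.Adj (s y) d)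
    (hd : 4 * p + 6 ≤ (J.filter (fun f => G.Adj y f ∧ ¬ G.Adj d f)).card)
    (e1 : d ≠ s (s y)) (e2 : y ≠ s d) (e3 : y ≠ s (s d)) :
    (J.filter (fun f => G.Adj y f ∧ ¬ G.Adj (s d) f)).card < p := by
  have h0 := self_empty G J y
  have hyd := bad_adj G p hG s hs J hJ y h1 d hvd hd
  have hdy : d ≠ y := hyd.ne'
  have hdv : d ≠ s y := hvd.ne'
  have hyw : ¬ G.Adj y (s d) := fun h => hsw y d hdy hdv e1 e2 e3 h hvd.symm
  by_cases hnull : ∀ f ∈ J, G.Adj y f → ¬ G.Adj (s d) f
  · exfalso
    have := count_of G p hG J hJ y y d (s d) d hyd (hs d) e2 hyw ∅ (by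
      intro f hf h2 h3 h4
      rcases h4 with h4 | h4
      · exact absurd h4 h3
      · exact absurd h4 (hnull f hf h2))
    rw [Finset.card_empty] at this
    omega
  · push Not at hnull
    obtain ⟨e, heJ, hye, hwe⟩ := hnull
    apply hG.lt y e (s d) _ hye hwe.symm e2 hyw
    · intro f hf
      rw [Finset.mem_filter] at hf
      refine ⟨hf.2.1, ?_, hJ e heJ f hf.1, hf.2.2⟩
      rintro rfl
      exact hf.2.2 hwe
    · intro f hf f' hf'
      rw [Finset.mem_filter] at hf hf'
      exact hJ f hf.1 f' hf'.1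

include hG hs hJ h1 in
/-- Two bad neighbours of `s y` which are not close together: one half. -/
theorem bad_pair (d d' : V) (hvd : G.Adj (s y) d) (hvd' : G.Adj (s y) d')
    (hd : 4 * p + 6 ≤ (J.filter (fun f => G.Adj y f ∧ ¬ G.Adj d f)).card)
    (hd' : 4 * p + 6 ≤ (J.filter (fun f => G.Adj y f ∧ ¬ G.Adj d' f)).card)
    (hw : (J.filter (fun f => G.Adj y f ∧ ¬ G.Adj (s d') f)).card < p)
    (hne : d ≠ s d') (hnd : ¬ G.Adj d (s d')) : False := by
  have h0 := self_empty G J y
  have hyd' := bad_adj G p hG s hs J hJ y h1 d' hvd' hd'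
  have hwv : s d' ≠ s y := fun h => hyd'.ne' (s.injective h)
  by_cases hvw : G.Adj (s y) (s d')
  · have := count_of G p hG J hJ y (s d') (s y) d d hvw.symm hvd hne.symm
      (fun h => hnd h.symm) (J.filter (fun f => G.Adj y f ∧ G.Adj (s y) f)) (by
        intro f hf h2 h3 h4
        rw [Finset.mem_filter]
        rcases h4 with h4 | h4
        · exact ⟨hf, h2, h4⟩
        · exact absurd h4 h3)
    omega
  · have := count_of G p hG J hJ y (s d') d' (s y) d' (hs d').symm hvd'.symm hwv
      (fun h => hvw h.symm) (J.filter (fun f => G.Adj y f ∧ G.Adj (s y) f)) (by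
        intro f hf h2 h3 h4
        rw [Finset.mem_filter]
        rcases h4 with h4 | h4
        · exact absurd h4 h3
        · exact ⟨hf, h2, h4⟩)
    omega

include hG hs hJ h1 hsw in
theorem succ_nbrs_of :
    (Finset.univ.filter (fun d => G.Adj (s y) d ∧
      4 * p + 6 ≤ (J.filter (fun f => G.Adj y f ∧ ¬ G.Adj d f)).card)).card ≤ 9 := by
  set B := Finset.univ.filter (fun d => G.Adj (s y) d ∧
      4 * p + 6 ≤ (J.filter (fun f => G.Adj y f ∧ ¬ G.Adj d f)).card) with hB
  set E : Finset V := {s (s y), s.symm y, s.symm (s.symm y)} with hE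
  have hEc : E.card ≤ 3 := Finset.card_le_three
  have hmem : ∀ d ∈ B \ E, G.Adj (s y) d ∧
      4 * p + 6 ≤ (J.filter (fun f => G.Adj y f ∧ ¬ G.Adj d f)).card ∧
      (J.filter (fun f => G.Adj y f ∧ ¬ G.Adj (s d) f)).card < p := by
    intro d hd
    rw [Finset.mem_sdiff, hB, Finset.mem_filter, hE] at hd
    obtain ⟨⟨_, hvd, hc⟩, hdE⟩ := hd
    simp only [Finset.mem_insert, Finset.mem_singleton, not_or] at hdE
    refine ⟨hvd, hc, bad_succ G p hG s hs hsw J hJ y h1 d hvd hc hdE.1 ?_ ?_⟩
    · intro h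
      exact hdE.2.1 (by rw [h, s.symm_apply_apply])
    · intro h
      exact hdE.2.2 (by rw [h, s.symm_apply_apply, s.symm_apply_apply])
  have hcard : (B \ E).card ≤ 5 := by
    by_cases hem : B \ E = ∅
    · rw [hem, Finset.card_empty]
      omega
    · obtain ⟨d0, hd0⟩ := Finset.nonempty_iff_ne_empty.mpr hem
      have hsub : B \ E ⊆ {d0, s d0, s (s d0), s.symm d0, s.symm (s.symm d0)} := by
        intro d hd
        by_contra hcon
        simp only [Finset.mem_insert, Finset.mem_singleton, not_or] at hcon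
        obtain ⟨c1, c2, c3, c4, c5⟩ := hcon
        have c4' : d0 ≠ s d := fun h => c4 (by rw [h, s.symm_apply_apply])
        have c5' : d0 ≠ s (s d) := fun h => c5 (by
          rw [h, s.symm_apply_apply, s.symm_apply_apply])
        obtain ⟨a1, a2, a3⟩ := hmem d hd
        obtain ⟨b1, b2, b3⟩ := hmem d0 hd0
        by_cases hx : G.Adj d0 (s d)
        · by_cases hx' : G.Adj d (s d0)
          · exact hsw d0 d c1 c2 c3 c4' c5' hx hx'
          · exact bad_pair G p hG s hs J hJ y h1 d d0 a1 b1 a2 b2 b3 c2 hx'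
        · exact bad_pair G p hG s hs J hJ y h1 d0 d b1 a1 b2 a2 a3 c4' hx
      refine (Finset.card_le_card hsub).trans ?_
      exact Finset.card_le_five
  have hsplit : B.card ≤ (B \ E).card + E.card := by
    have h := Finset.card_le_card (show B ⊆ (B \ E) ∪ E by
      intro x hx
      by_cases hxE : x ∈ E
      · exact Finset.mem_union_right _ hxE
      · exact Finset.mem_union_left _ (Finset.mem_sdiff.mpr ⟨hx, hxE⟩))
    exact h.trans (Finset.card_union_le _ _)
  omega

end

end Pool.Agent.H10.SD
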