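import Mathlib
import Pool.Agent.H10.SD.M1
import Pool.Agent.H10.SD.M2a

namespace Pool.Agent.H10.SD

open Equiv Equiv.Perm

theorem succ_nbrs {V : Type} [Fintype V] [DecidableEq V] (G : SimpleGraph V) [DecidableRel G.Adj]
    (p : ℕ) (hG : SdFree p G) (s : Perm V) (hs : ∀ x, G.Adj x (s x)) (hsw : SwapFree G s)
    (J : Finset V) (hJ : ∀ x ∈ J, ∀ y ∈ J, ¬ G.Adj x y) (y : V) :
    (Finset.univ.filter (fun d => G.Adj (s y) d ∧
      4 * p + 6 ≤ (J.filter (fun f => G.Adj y f ∧ ¬ G.Adj d f)).card)).card ≤ 9 :=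
  succ_nbrs_of G p hG s hs hsw J hJ y (succ_few G p hG s hs hsw J hJ y)

end Pool.Agent.H10.SD
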