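import Mathlib
import Pool.Agent.H10.SD.Base
import Pool.Agent.H10.SD.M1

/-!
Near nestedness of the neighbourhoods of the vertices that see nearly all of `J`.
-/

set_option linter.unusedSectionVars false

namespace Pool.Agent.H10.SD

open Equiv Equiv.Perm

section

variable {V : Type} [Fintype V] [DecidableEq V] {G : SimpleGraph V} [DecidableRel G.Adj]
    {p : ℕ} (hG : SdFree p G) {s : Perm V} (hs : ∀ x, G.Adj x (s x)) (hsw : SwapFree G s)
    {J : Finset V} (hJ : ∀ x ∈ J, ∀ y ∈ J, ¬ G.Adj x y) {Θ Θ' : ℕ} (hΘ : Θ' ≤ Θ)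
    (hr : 3 * Θ + 4 * p + 10 ≤ J.card)
    {T T' S : Finset V}
    (hT : ∀ y, y ∈ T ↔ (J.filter (fun f => ¬ G.Adj y f)).card ≤ Θ)
    (hT' : ∀ y, y ∈ T' ↔ (J.filter (fun f => ¬ G.Adj y f)).card ≤ Θ')
    (hS : S = T'.image s)

include hG hs hsw hJ hΘ hT' hS in
/-- A vertex of `S` has few neighbours in `J`. -/
theorem few_in_J (v : V) (hv : v ∈ S) :
    (J.filter (fun f => G.Adj v f)).card ≤ Θ + 2 * p + 4 := by
  rw [hS] at hv
  obtain ⟨y, hy, rfl⟩ := Finset.mem_image.mp hv
  have h1 := succ_few G p hG s hs hsw J hJ y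
  have h2 := (hT' y).mp hy
  have h3 : J.filter (fun f => G.Adj (s y) f) ⊆
      J.filter (fun f => G.Adj y f ∧ G.Adj (s y) f) ∪ J.filter (fun f => ¬ G.Adj y f) := by
    intro f hf
    obtain ⟨hf1, hf2⟩ := Finset.mem_filter.mp hf
    rw [Finset.mem_union, Finset.mem_filter, Finset.mem_filter]
    by_cases h : G.Adj y f
    · exact Or.inl ⟨hf1, h, hf2⟩
    · exact Or.inr ⟨hf1, h⟩
  have h4 := (Finset.card_le_card h3).trans (Finset.card_union_le _ _)
  omega

include hG hs hsw hJ hΘ hr hT hT' hS in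
theorem S_not_T (v : V) (hv : v ∈ S) : v ∉ T := by
  intro hvT
  have h1 := few_in_J hG hs hsw hJ hΘ hT' hS v hv
  have h2 := (hT v).mp hvT
  have h3 := Finset.card_filter_add_card_filter_not (s := J) (fun f => G.Adj v f)
  omega

include hG hs hsw hJ hΘ hr hT hT' hS in
/-- (N1) A vertex of `S` that is not a neighbour of `y ∈ T` sees nothing of `J` that `y` sees. -/
theorem null_of_not_adj (v : V) (hv : v ∈ S) (y : V) (hy : y ∈ T) (hvy : ¬ G.Adj y v) :
    ∀ f ∈ J, G.Adj y f → ¬ G.Adj v f := by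
  intro e he hye hve
  have hne : y ≠ v := by
    rintro rfl
    exact S_not_T hG hs hsw hJ hΘ hr hT hT' hS y hv hy
  have h1 := hG.lt y e v (J.filter (fun f => G.Adj y f ∧ ¬ G.Adj v f)) hye hve.symm hne hvy
    (by
      intro f hf
      obtain ⟨hf1, hf2, hf3⟩ := Finset.mem_filter.mp hf
      refine ⟨hf2, ?_, hJ e he f hf1, hf3⟩
      rintro rfl
      exact hf3 hve)
    (by
      intro f hf f' hf'
      exact hJ f (Finset.mem_filter.mp hf).1 f' (Finset.mem_filter.mp hf').1)
  have h2 := few_in_J hG hs hsw hJ hΘ hT' hS v hv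
  have h3 := (hT y).mp hy
  have h4 : J ⊆ J.filter (fun f => G.Adj y f ∧ ¬ G.Adj v f) ∪
      (J.filter (fun f => G.Adj v f) ∪ J.filter (fun f => ¬ G.Adj y f)) := by
    intro f hf
    rw [Finset.mem_union, Finset.mem_union, Finset.mem_filter, Finset.mem_filter,
      Finset.mem_filter]
    by_cases ha : G.Adj y f
    · by_cases hb : G.Adj v f
      · exact Or.inr (Or.inl ⟨hf, hb⟩)
      · exact Or.inl ⟨hf, ha, hb⟩
    · exact Or.inr (Or.inr ⟨hf, ha⟩)
  have h5 := (Finset.card_le_card h4).trans (Finset.card_union_le _ _)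
  have h6 := Finset.card_union_le (J.filter (fun f => G.Adj v f)) (J.filter (fun f => ¬ G.Adj y f))
  omega

include hG hs hsw hJ hΘ hr hT hT' hS in
/-- (N2) for one order. -/
theorem S_indep_aux (y1 y2 : V) (h1 : y1 ∈ T') (h2 : y2 ∈ T') (hadj : G.Adj (s y1) (s y2))
    (hn : ¬ G.Adj y1 (s y2)) : False := by
  have hv1 : s y1 ∈ S := by rw [hS]; exact Finset.mem_image_of_mem _ h1
  have hv2 : s y2 ∈ S := by rw [hS]; exact Finset.mem_image_of_mem _ h2
  have hT1 : y1 ∈ T := (hT y1).mpr (((hT' y1).mp h1).trans hΘ)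
  have hnull := null_of_not_adj hG hs hsw hJ hΘ hr hT hT' hS (s y2) hv2 y1 hT1 hn
  have hne : y1 ≠ s y2 := by
    rintro h
    exact S_not_T hG hs hsw hJ hΘ hr hT hT' hS (s y2) hv2 (h ▸ hT1)
  have h3 := hG.lt y1 (s y1) (s y2)
    (J.filter (fun f => G.Adj y1 f ∧ ¬ G.Adj (s y1) f ∧ f ≠ s y1)) (hs y1) hadj hne hn
    (by
      intro f hf
      obtain ⟨hf1, hf2, hf3, hf4⟩ := Finset.mem_filter.mp hf
      exact ⟨hf2, hf4, hf3, hnull f hf1 hf2⟩)
    (by
      intro f hf f' hf'
      exact hJ f (Finset.mem_filter.mp hf).1 f' (Finset.mem_filter.mp hf').1)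
  have h4 := few_in_J hG hs hsw hJ hΘ hT' hS (s y1) hv1
  have h5 := (hT y1).mp hT1
  have h6 : J ⊆ J.filter (fun f => G.Adj y1 f ∧ ¬ G.Adj (s y1) f ∧ f ≠ s y1) ∪
      (J.filter (fun f => G.Adj (s y1) f) ∪ (J.filter (fun f => ¬ G.Adj y1 f) ∪ {s y1})) := by
    intro f hf
    rw [Finset.mem_union, Finset.mem_union, Finset.mem_union, Finset.mem_filter,
      Finset.mem_filter, Finset.mem_filter, Finset.mem_singleton]
    by_cases ha : G.Adj y1 f
    · by_cases hb : G.Adj (s y1) f
      · exact Or.inr (Or.inl ⟨hf, hb⟩)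
      · by_cases hc : f = s y1
        · exact Or.inr (Or.inr (Or.inr hc))
        · exact Or.inl ⟨hf, ha, hb, hc⟩
    · exact Or.inr (Or.inr (Or.inl ⟨hf, ha⟩))
  have h7 := (Finset.card_le_card h6).trans (Finset.card_union_le _ _)
  have h8 := Finset.card_union_le (J.filter (fun f => G.Adj (s y1) f))
    (J.filter (fun f => ¬ G.Adj y1 f) ∪ {s y1})
  have h9 := Finset.card_union_le (J.filter (fun f => ¬ G.Adj y1 f)) {s y1}
  rw [Finset.card_singleton] at h9
  omega

include hG hs hsw hJ hΘ hr hT hT' hS in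
/-- (N2) Two vertices of `S` not at distance two are not adjacent. -/
theorem S_indep (v1 v2 : V) (h1 : v1 ∈ S) (h2 : v2 ∈ S) (hne : v1 ≠ v2) (ha : v2 ≠ s (s v1))
    (hb : v1 ≠ s (s v2)) : ¬ G.Adj v1 v2 := by
  intro hadj
  have h1' := h1
  have h2' := h2
  rw [hS] at h1' h2'
  obtain ⟨y1, hy1, rfl⟩ := Finset.mem_image.mp h1'
  obtain ⟨y2, hy2, rfl⟩ := Finset.mem_image.mp h2'
  have hT1 : y1 ∈ T := (hT y1).mpr (((hT' y1).mp hy1).trans hΘ)
  have hT2 : y2 ∈ T := (hT y2).mpr (((hT' y2).mp hy2).trans hΘ)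
  by_cases hc : G.Adj y1 (s y2)
  · by_cases hd : G.Adj y2 (s y1)
    · apply hsw y1 y2 _ _ _ _ _ hc hd
      · rintro rfl
        exact hne rfl
      · intro h
        exact S_not_T hG hs hsw hJ hΘ hr hT hT' hS (s y1) h1 (h ▸ hT2)
      · intro h
        exact ha (congrArg s h)
      · intro h
        exact S_not_T hG hs hsw hJ hΘ hr hT hT' hS (s y2) h2 (h ▸ hT1)
      · intro h
        exact hb (congrArg s h)
    · exact S_indep_aux hG hs hsw hJ hΘ hr hT hT' hS y2 y1 hy2 hy1 hadj.symm hd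
  · exact S_indep_aux hG hs hsw hJ hΘ hr hT hT' hS y1 y2 hy1 hy2 hadj hc

end

/-- A graph in which every vertex has at most two neighbours `t x`, `t⁻¹ x`: a set with `3 p`
elements contains an independent one with `p` elements. -/
theorem exists_indep {V : Type} [DecidableEq V] (t : Perm V) (p : ℕ) : ∀ A : Finset V,
    3 * p ≤ A.card → ∃ F ⊆ A, F.card = p ∧ ∀ x ∈ F, ∀ y ∈ F, x ≠ y → y ≠ t x := by
  induction p with
  | zero =>
    intro A _
    exact ⟨∅, Finset.empty_subset _, rfl, by simp⟩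
  | succ p ih =>
    intro A hA
    have hne : A.Nonempty := Finset.card_pos.mp (by omega)
    obtain ⟨a, ha⟩ := hne
    obtain ⟨F, hF1, hF2, hF3⟩ := ih (A \ {a, t a, t.symm a}) (by
      have h1 := Finset.le_card_sdiff {a, t a, t.symm a} A
      have h2 : ({a, t a, t.symm a} : Finset V).card ≤ 3 := Finset.card_le_three
      omega)
    have haF : a ∉ F := by
      intro h
      have := (Finset.mem_sdiff.mp (hF1 h)).2
      simp at this
    refine ⟨insert a F, ?_, ?_, ?_⟩
    · intro x hx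
      rcases Finset.mem_insert.mp hx with rfl | hx
      · exact ha
      · exact (Finset.mem_sdiff.mp (hF1 hx)).1
    · rw [Finset.card_insert_of_notMem haF, hF2]
    · intro x hx y hy hxy
      rcases Finset.mem_insert.mp hx with rfl | hx'
      · rcases Finset.mem_insert.mp hy with rfl | hy
        · exact absurd rfl hxy
        · have := (Finset.mem_sdiff.mp (hF1 hy)).2
          intro h
          apply this
          simp [h]
      · rcases Finset.mem_insert.mp hy with rfl | hy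
        · have hx2 := (Finset.mem_sdiff.mp (hF1 hx')).2
          intro h
          apply hx2
          have h3 : x = t.symm y := by rw [h, t.symm_apply_apply]
          simp [h3]
        · exact hF3 x hx' y hy hxy

theorem nested {V : Type} [Fintype V] [DecidableEq V] (G : SimpleGraph V) [DecidableRel G.Adj]
    (p : ℕ) (hG : SdFree p G) (s : Perm V) (hs : ∀ x, G.Adj x (s x)) (hsw : SwapFree G s)
    (J : Finset V) (hJ : ∀ x ∈ J, ∀ y ∈ J, ¬ G.Adj x y) (Θ Θ' : ℕ) (hΘ : Θ' ≤ Θ)
    (hr : 3 * Θ + 4 * p + 10 ≤ J.card)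
    (T T' S : Finset V)
    (hT : ∀ y, y ∈ T ↔ (J.filter (fun f => ¬ G.Adj y f)).card ≤ Θ)
    (hT' : ∀ y, y ∈ T' ↔ (J.filter (fun f => ¬ G.Adj y f)).card ≤ Θ')
    (hS : S = T'.image s) (y y' : V) (hy : y ∈ T) (hy' : y' ∈ T) (hne : y ≠ y')
    (h : p ≤ (J.filter (fun f => G.Adj y f ∧ ¬ G.Adj y' f)).card ∨
      3 * p + 2 ≤ (S.filter (fun v => G.Adj y v ∧ ¬ G.Adj y' v)).card) :
    (∀ f ∈ J, G.Adj y' f → G.Adj y f) ∧ (∀ v ∈ S, G.Adj y' v → G.Adj y v) := by
  have hTJ : ∀ z ∈ T, z ∉ J := by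
    intro z hz hzJ
    have h1 := (hT z).mp hz
    have h2 : J.filter (fun f => ¬ G.Adj z f) = J :=
      Finset.filter_true_of_mem (fun f hf => hJ z hzJ f hf)
    rw [h2] at h1
    omega
  have hTS : ∀ z ∈ T, z ∉ S := fun z hz hzS =>
    S_not_T hG hs hsw hJ hΘ hr hT hT' hS z hzS hz
  have hnull := null_of_not_adj hG hs hsw hJ hΘ hr hT hT' hS
  have hind := S_indep hG hs hsw hJ hΘ hr hT hT' hS
  -- independent subsets of `S`
  have hsub : ∀ A ⊆ S, 3 * p ≤ A.card → ∃ F ⊆ A, F.card = p ∧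
      ∀ f ∈ F, ∀ f' ∈ F, ¬ G.Adj f f' := by
    intro A hA hc
    obtain ⟨F, hF1, hF2, hF3⟩ := exists_indep (s.trans s) p A hc
    refine ⟨F, hF1, hF2, ?_⟩
    intro f hf f' hf' hadj
    have hff : f ≠ f' := G.ne_of_adj hadj
    exact hind f f' (hA (hF1 hf)) (hA (hF1 hf')) hff (hF3 f hf f' hf' hff)
      (hF3 f' hf' f hf hff.symm) hadj
  have hadj : G.Adj y y' := by
    by_contra hn
    obtain ⟨e, he, hye, hy'e⟩ : ∃ e ∈ J, G.Adj y e ∧ G.Adj y' e := by
      by_contra hcon
      push Not at hcon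
      have h1 := (hT y).mp hy
      have h2 := (hT y').mp hy'
      have h3 : J ⊆ J.filter (fun f => ¬ G.Adj y f) ∪ J.filter (fun f => ¬ G.Adj y' f) := by
        intro f hf
        rw [Finset.mem_union, Finset.mem_filter, Finset.mem_filter]
        by_cases ha : G.Adj y f
        · exact Or.inr ⟨hf, hcon f hf ha⟩
        · exact Or.inl ⟨hf, ha⟩
      have h4 := (Finset.card_le_card h3).trans (Finset.card_union_le _ _)
      omega
    rcases h with h | h
    · have h1 := hG.lt y e y' (J.filter (fun f => G.Adj y f ∧ ¬ G.Adj y' f)) hye hy'e.symm hne hn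
        (by
          intro f hf
          obtain ⟨hf1, hf2, hf3⟩ := Finset.mem_filter.mp hf
          refine ⟨hf2, ?_, hJ e he f hf1, hf3⟩
          rintro rfl
          exact hf3 hy'e)
        (by
          intro f hf f' hf'
          exact hJ f (Finset.mem_filter.mp hf).1 f' (Finset.mem_filter.mp hf').1)
      omega
    · obtain ⟨F, hF1, hF2, hF3⟩ := hsub (S.filter (fun v => G.Adj y v ∧ ¬ G.Adj y' v))
        (Finset.filter_subset _ _) (by omega)
      apply hG y e y' F hye hy'e.symm hne hn hF2 _ hF3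
      intro f hf
      obtain ⟨hf1, hf2, hf3⟩ := Finset.mem_filter.mp (hF1 hf)
      refine ⟨hf2, ?_, ?_, hf3⟩
      · rintro rfl
        exact hf3 hy'e
      · intro hef
        exact hnull f hf1 y' hy' hf3 e he hy'e hef.symm
  have main : ∀ b, (b ∈ J ∨ b ∈ S) → G.Adj y' b → ¬ G.Adj y b → False := by
    intro b hb hy'b hyb
    have hyb' : y ≠ b := by
      rintro rfl
      rcases hb with hb | hb
      · exact hTJ y hy hb
      · exact hTS y hy hb
    rcases h with h | h
    · have h1 := hG.lt y y' b (J.filter (fun f => G.Adj y f ∧ ¬ G.Adj y' f)) hadj hy'b hyb' hyb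
        (by
          intro f hf
          obtain ⟨hf1, hf2, hf3⟩ := Finset.mem_filter.mp hf
          refine ⟨hf2, ?_, hf3, ?_⟩
          · rintro rfl
            exact hTJ f hy' hf1
          · rcases hb with hb | hb
            · exact hJ b hb f hf1
            · exact hnull b hb y hy hyb f hf1 hf2)
        (by
          intro f hf f' hf'
          exact hJ f (Finset.mem_filter.mp hf).1 f' (Finset.mem_filter.mp hf').1)
      omega
    · obtain ⟨F, hF1, hF2, hF3⟩ := hsub
        ((S.filter (fun v => G.Adj y v ∧ ¬ G.Adj y' v)) \ {s (s b), s.symm (s.symm b)})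
        (Finset.sdiff_subset.trans (Finset.filter_subset _ _)) (by
          have h1 := Finset.le_card_sdiff {s (s b), s.symm (s.symm b)}
            (S.filter (fun v => G.Adj y v ∧ ¬ G.Adj y' v))
          have h2 : ({s (s b), s.symm (s.symm b)} : Finset V).card ≤ 2 := Finset.card_le_two
          omega)
      apply hG y y' b F hadj hy'b hyb' hyb hF2 _ hF3
      intro f hf
      obtain ⟨hf0, hfn⟩ := Finset.mem_sdiff.mp (hF1 hf)
      obtain ⟨hf1, hf2, hf3⟩ := Finset.mem_filter.mp hf0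
      rw [Finset.mem_insert, Finset.mem_singleton, not_or] at hfn
      refine ⟨hf2, ?_, hf3, ?_⟩
      · rintro rfl
        exact hTS f hy' hf1
      · rcases hb with hb | hb
        · intro hbf
          exact hnull f hf1 y' hy' hf3 b hb hy'b hbf.symm
        · apply hind b f hb hf1 _ hfn.1
          · intro h
            apply hfn.2
            rw [h, s.symm_apply_apply, s.symm_apply_apply]
          · rintro rfl
            exact hyb hf2
  refine ⟨?_, ?_⟩
  · intro f hf h1
    by_contra h2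
    exact main f (Or.inl hf) h1 h2
  · intro v hv h1
    by_contra h2
    exact main v (Or.inr hv) h1 h2

end Pool.Agent.H10.SD
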