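import Mathlib

/-!
The abstract cluster lemma (`A` is the adjacency).
-/

set_option linter.unusedSectionVars false
set_option linter.unusedVariables false

namespace Pool.Agent.H10.SD

open Equiv Equiv.Perm

section cl

variable {V : Type} [Fintype V] [DecidableEq V] (A : V → V → Prop) [DecidableRel A]

theorem card_split_pq (F : Finset V) (P Q : V → Prop) [DecidablePred P] [DecidablePred Q] :
    (F.filter P).card = (F.filter (fun x => P x ∧ Q x)).card
      + (F.filter (fun x => P x ∧ ¬ Q x)).card := by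
  rw [← Finset.filter_filter, ← Finset.filter_filter]
  exact (Finset.card_filter_add_card_filter_not _).symm

theorem few_of_swap (s : Perm V) (C : Finset V) (ε : ℕ) (hε : 1 ≤ ε)
    (hmiss : ∀ y ∈ C, (C.filter (fun y' => ¬ A y (s y'))).card < ε)
    (hswap : ∀ y ∈ C, ∀ y' ∈ C, y ≠ y' → y' ≠ s (s y) → y ≠ s (s y') →
      ¬ (A y (s y') ∧ A y' (s y))) :
    C.card ≤ 2 * ε + 1 := by
  classical
  by_contra hcon
  push Not at hcon
  have h1 : ∀ y ∈ C, C.card - 1 ≤ (C.filter (fun y' => ¬ A y (s y'))).card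
      + (C.filter (fun y' => ¬ A y' (s y))).card + 2 := by
    intro y hy
    have hsub : C.erase y ⊆ (C.filter (fun y' => ¬ A y (s y')))
        ∪ (C.filter (fun y' => ¬ A y' (s y))) ∪ ({s (s y), s.symm (s.symm y)} : Finset V) := by
      intro z hz
      rw [Finset.mem_erase] at hz
      simp only [Finset.mem_union, Finset.mem_filter, Finset.mem_insert, Finset.mem_singleton]
      by_cases h2 : z = s (s y)
      · exact Or.inr (Or.inl h2)
      by_cases h3 : y = s (s z)
      · exact Or.inr (Or.inr (by rw [h3]; simp))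
      have h4 := hswap y hy z hz.2 (Ne.symm hz.1) h2 h3
      by_cases h5 : A y (s z)
      · exact Or.inl (Or.inr ⟨hz.2, fun h => h4 ⟨h5, h⟩⟩)
      · exact Or.inl (Or.inl ⟨hz.2, h5⟩)
    have h2 := Finset.card_le_card hsub
    rw [Finset.card_erase_of_mem hy] at h2
    have h3 := Finset.card_union_le ((C.filter (fun y' => ¬ A y (s y')))
        ∪ (C.filter (fun y' => ¬ A y' (s y)))) ({s (s y), s.symm (s.symm y)} : Finset V)
    have h4 := Finset.card_union_le (C.filter (fun y' => ¬ A y (s y')))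
        (C.filter (fun y' => ¬ A y' (s y)))
    have h5 : ({s (s y), s.symm (s.symm y)} : Finset V).card ≤ 2 := Finset.card_le_two
    omega
  have h2 : ∑ y ∈ C, (C.filter (fun y' => ¬ A y' (s y))).card
      = ∑ y ∈ C, (C.filter (fun y' => ¬ A y (s y'))).card := by
    simp only [Finset.card_filter]
    exact Finset.sum_comm
  have h3 : ∑ y ∈ C, (C.filter (fun y' => ¬ A y (s y'))).card ≤ C.card * (ε - 1) := by
    rw [← smul_eq_mul, ← Finset.sum_const]
    apply Finset.sum_le_sum
    intro y hy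
    have := hmiss y hy
    omega
  have h4 := Finset.sum_le_sum h1
  rw [Finset.sum_add_distrib, Finset.sum_add_distrib, h2, Finset.sum_const, Finset.sum_const,
    smul_eq_mul, smul_eq_mul] at h4
  obtain ⟨m, hm⟩ : ∃ m, C.card = m + 1 := ⟨C.card - 1, by omega⟩
  obtain ⟨e, he⟩ : ∃ e, ε = e + 1 := ⟨ε - 1, by omega⟩
  rw [he] at h3 hcon
  rw [hm] at h3 h4 hcon
  simp only [Nat.add_sub_cancel] at h3 h4
  have h5 : (m + 1) * m ≤ (m + 1) * (2 * e + 2) := by nlinarith
  have h6 : m ≤ 2 * e + 2 := Nat.le_of_mul_le_mul_left h5 (by omega)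
  omega

theorem cluster_step (s : Perm V) (J T T' S : Finset V) (p ε c k Θ' : ℕ) (hp : 1 ≤ p)
    (hε : 1 ≤ ε)
    (hT' : ∀ y ∈ T, y ∈ T' ↔ (J.filter (fun f => ¬ A y f)).card ≤ Θ')
    (hS : S = T'.image s)
    (hnest : ∀ y ∈ T, ∀ y' ∈ T, y ≠ y' →
      (p ≤ (J.filter (fun f => A y f ∧ ¬ A y' f)).card ∨
        ε ≤ (S.filter (fun v => A y v ∧ ¬ A y' v)).card) →
      (∀ f ∈ J, A y' f → A y f) ∧ (∀ v ∈ S, A y' v → A y v))
    (hswap : ∀ y ∈ T', ∀ y' ∈ T', y ≠ y' → y' ≠ s (s y) → y ≠ s (s y') →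
      ¬ (A y (s y') ∧ A y' (s y)))
    (hdeg : ∀ v ∈ S, k + 4 ≤ (T.filter (fun y => A y v)).card)
    (hlow : 4 ≤ (T.filter (fun y => (J.filter (fun f => ¬ A y f)).card ≤ c)).card)
    (hΘ' : c + 2 * p ≤ Θ') (hk : 4 * ε + 3 ≤ k) (R : Finset V) (hR : R.card ≤ 3) :
    ∃ b ∈ T', b ∉ R ∧ ∀ v ∈ S, A b v := by
  classical
  have hy0 : ∃ y0 ∈ T, y0 ∉ R ∧ (J.filter (fun f => ¬ A y0 f)).card ≤ c := by
    by_contra hcon
    push Not at hcon
    have h1 : (T.filter (fun y => (J.filter (fun f => ¬ A y f)).card ≤ c)) ⊆ R := by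
      intro y hy
      rw [Finset.mem_filter] at hy
      by_contra hyR
      exact absurd hy.2 (not_le.2 (hcon y hy.1 hyR))
    have h2 := Finset.card_le_card h1
    omega
  obtain ⟨y0, hy0T, hy0R, hy0c⟩ := hy0
  obtain ⟨b, hb, hmax⟩ := Finset.exists_max_image (T \ R)
    (fun y => (J.filter (fun f => A y f)).card + (S.filter (fun v => A y v)).card)
    ⟨y0, Finset.mem_sdiff.2 ⟨hy0T, hy0R⟩⟩
  obtain ⟨hbT, hbR⟩ := Finset.mem_sdiff.1 hb
  -- cardinalities
  have htot : ∀ y, (J.filter (fun f => A y f)).card + (J.filter (fun f => ¬ A y f)).card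
      = J.card := fun y => Finset.card_filter_add_card_filter_not _
  have hsw : ∀ (F : Finset V) (y y' : V), (F.filter (fun f => A y f ∧ A y' f)).card
      = (F.filter (fun f => A y' f ∧ A y f)).card := by
    intro F y y'
    congr 1
    ext f
    simp only [Finset.mem_filter]
    tauto
  have hJd : ∀ y y', (J.filter (fun f => A y f)).card
      = (J.filter (fun f => A y f ∧ A y' f)).card
        + (J.filter (fun f => A y f ∧ ¬ A y' f)).card := fun y y' => card_split_pq J _ _
  have hSd : ∀ y y', (S.filter (fun f => A y f)).card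
      = (S.filter (fun f => A y f ∧ A y' f)).card
        + (S.filter (fun f => A y f ∧ ¬ A y' f)).card := fun y y' => card_split_pq S _ _
  -- no vertex outside `R` dominates `b`
  have hno : ∀ y ∈ T, y ∉ R → y ≠ b → (J.filter (fun f => A y f ∧ ¬ A b f)).card < p ∧
      (S.filter (fun v => A y v ∧ ¬ A b v)).card < ε := by
    intro y hyT hyR hyb
    by_contra hcon
    have h1 : p ≤ (J.filter (fun f => A y f ∧ ¬ A b f)).card ∨
        ε ≤ (S.filter (fun v => A y v ∧ ¬ A b v)).card := by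
      by_contra h2
      push Not at h2
      exact hcon h2
    obtain ⟨h2, h3⟩ := hnest y hyT b hbT hyb h1
    have h4 := hmax y (Finset.mem_sdiff.2 ⟨hyT, hyR⟩)
    have h5 : (J.filter (fun f => A b f ∧ ¬ A y f)).card = 0 := by
      rw [Finset.card_eq_zero, Finset.filter_eq_empty_iff]
      rintro f hf ⟨hb1, hb2⟩
      exact hb2 (h2 f hf hb1)
    have h6 : (S.filter (fun f => A b f ∧ ¬ A y f)).card = 0 := by
      rw [Finset.card_eq_zero, Finset.filter_eq_empty_iff]
      rintro f hf ⟨hb1, hb2⟩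
      exact hb2 (h3 f hf hb1)
    have h7 := hJd y b
    have h8 := hJd b y
    have h9 := hSd y b
    have h10 := hSd b y
    have h11 := hsw J y b
    have h12 := hsw S y b
    omega
  -- `b` misses few elements of `J`
  have hbc : (J.filter (fun f => ¬ A b f)).card ≤ c + p - 1 := by
    by_cases h : y0 = b
    · rw [← h]
      omega
    · have h1 := (hno y0 hy0T hy0R h).1
      have h2 := hJd y0 b
      have h3 := hJd b y0
      have h4 := hsw J y0 b
      have h5 := htot y0
      have h6 := htot b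
      omega
  have hbT' : b ∈ T' := (hT' b hbT).2 (by omega)
  refine ⟨b, hbT', hbR, ?_⟩
  by_contra hcon
  push Not at hcon
  obtain ⟨v0, hv0, hv0b⟩ := hcon
  -- neighbours of a missed vertex are near `b`
  have hnear : ∀ y ∈ T, y ∉ R → (∃ v ∈ S, ¬ A b v ∧ A y v) → y ≠ b ∧ y ∈ T' ∧
      (S.filter (fun v => A y v ∧ ¬ A b v)).card < ε ∧
      (S.filter (fun v => A b v ∧ ¬ A y v)).card < ε := by
    rintro y hyT hyR ⟨v, hv, hbv, hyv⟩
    have hyb : y ≠ b := by
      rintro rfl
      exact hbv hyv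
    obtain ⟨h1, h2⟩ := hno y hyT hyR hyb
    have h3 : (J.filter (fun f => A b f ∧ ¬ A y f)).card < p ∧
        (S.filter (fun v => A b v ∧ ¬ A y v)).card < ε := by
      by_contra hc
      have h4 : p ≤ (J.filter (fun f => A b f ∧ ¬ A y f)).card ∨
          ε ≤ (S.filter (fun v => A b v ∧ ¬ A y v)).card := by
        by_contra h5
        push Not at h5
        exact hc h5
      exact hbv ((hnest b hbT y hyT (Ne.symm hyb) h4).2 v hv hyv)
    refine ⟨hyb, (hT' y hyT).2 ?_, h2, h3.2⟩
    have h4 := hJd y b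
    have h5 := hJd b y
    have h6 := hsw J y b
    have h7 := htot y
    have h8 := htot b
    omega
  set U : Finset V := S.filter (fun v => ¬ A b v) with hU
  set C : Finset V := (T \ R).filter (fun y => ∃ v ∈ S, ¬ A b v ∧ A y v) with hC
  have hCm : ∀ y ∈ C, y ∈ T ∧ y ∉ R ∧ (∃ v ∈ S, ¬ A b v ∧ A y v) := by
    intro y hy
    rw [hC, Finset.mem_filter, Finset.mem_sdiff] at hy
    exact ⟨hy.1.1, hy.1.2, hy.2⟩
  have hCv : ∀ v ∈ U, k + 1 ≤ (C.filter (fun y => A y v)).card := by
    intro v hv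
    rw [hU, Finset.mem_filter] at hv
    have h1 : (T.filter (fun y => A y v)) \ R ⊆ C.filter (fun y => A y v) := by
      intro y hy
      rw [Finset.mem_sdiff, Finset.mem_filter] at hy
      rw [Finset.mem_filter, hC, Finset.mem_filter, Finset.mem_sdiff]
      exact ⟨⟨⟨hy.1.1, hy.2⟩, v, hv.1, hv.2, hy.1.2⟩, hy.1.2⟩
    have h2 := Finset.card_le_card h1
    have h3 := Finset.le_card_sdiff R (T.filter (fun y => A y v))
    have h4 := hdeg v hv.1
    omega
  have hdc : U.card * (k + 1) ≤ C.card * (ε - 1) := by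
    calc U.card * (k + 1) = ∑ v ∈ U, (k + 1) := by rw [Finset.sum_const, smul_eq_mul]
      _ ≤ ∑ v ∈ U, (C.filter (fun y => A y v)).card := Finset.sum_le_sum hCv
      _ = ∑ y ∈ C, (U.filter (fun v => A y v)).card := by
          simp only [Finset.card_filter]
          exact Finset.sum_comm
      _ ≤ ∑ y ∈ C, (ε - 1) := by
          apply Finset.sum_le_sum
          intro y hy
          obtain ⟨h1, h2, h3⟩ := hCm y hy
          have h4 := (hnear y h1 h2 h3).2.2.1
          have h5 : U.filter (fun v => A y v) = S.filter (fun v => A y v ∧ ¬ A b v) := by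
            ext v
            rw [hU]
            simp only [Finset.mem_filter]
            tauto
          rw [h5]
          omega
      _ = C.card * (ε - 1) := by rw [Finset.sum_const, smul_eq_mul]
  -- the part with successor seen by `b`
  have hsplit : C.card = (C.filter (fun y => A b (s y))).card
      + (C.filter (fun y => ¬ A b (s y))).card := (Finset.card_filter_add_card_filter_not _).symm
  have hsS : ∀ y ∈ T', s y ∈ S := by
    intro y hy
    rw [hS]
    exact Finset.mem_image_of_mem _ hy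
  have hC2 : (C.filter (fun y => ¬ A b (s y))).card ≤ U.card := by
    apply Finset.card_le_card_of_injOn s
    · intro y hy
      have hy := Finset.mem_filter.1 (Finset.mem_coe.1 hy)
      obtain ⟨h1, h2, h3⟩ := hCm y hy.1
      have h4 := hsS y (hnear y h1 h2 h3).2.1
      exact Finset.mem_coe.2 (by rw [hU]; exact Finset.mem_filter.2 ⟨h4, hy.2⟩)
    · exact s.injective.injOn
  have hC1 : (C.filter (fun y => A b (s y))).card ≤ 2 * ε + 1 := by
    apply few_of_swap A s _ ε hε
    · intro y hy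
      rw [Finset.mem_filter] at hy
      obtain ⟨h1, h2, h3⟩ := hCm y hy.1
      have h4 := (hnear y h1 h2 h3).2.2.2
      refine lt_of_le_of_lt ?_ h4
      apply Finset.card_le_card_of_injOn s
      · intro z hz
        have hz := Finset.mem_filter.1 (Finset.mem_coe.1 hz)
        have hz1 := Finset.mem_filter.1 hz.1
        obtain ⟨g1, g2, g3⟩ := hCm z hz1.1
        exact Finset.mem_coe.2 (Finset.mem_filter.2
          ⟨hsS z (hnear z g1 g2 g3).2.1, hz1.2, hz.2⟩)
      · exact s.injective.injOn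
    · intro y hy z hz
      rw [Finset.mem_filter] at hy hz
      obtain ⟨h1, h2, h3⟩ := hCm y hy.1
      obtain ⟨g1, g2, g3⟩ := hCm z hz.1
      exact hswap y (hnear y h1 h2 h3).2.1 z (hnear z g1 g2 g3).2.1
  have hv0U : v0 ∈ U := by
    rw [hU]
    exact Finset.mem_filter.2 ⟨hv0, hv0b⟩
  have hCk : k + 1 ≤ C.card :=
    (hCv v0 hv0U).trans (Finset.card_le_card (Finset.filter_subset _ _))
  have hUpos : 0 < U.card := Finset.card_pos.2 ⟨v0, hv0U⟩
  have hu : 2 * ε + 3 ≤ U.card := by omega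
  have hm : C.card ≤ 2 * U.card := by omega
  have h1 : U.card * (k + 1) ≤ 2 * U.card * (ε - 1) := hdc.trans (Nat.mul_le_mul_right _ hm)
  have h2 : U.card * (k + 1) ≤ U.card * (2 * (ε - 1)) := by
    calc U.card * (k + 1) ≤ 2 * U.card * (ε - 1) := h1
      _ = U.card * (2 * (ε - 1)) := by ring
  have h3 := Nat.le_of_mul_le_mul_left h2 hUpos
  omega

/-! MODULE 4. The abstract cluster lemma (`A` is the adjacency). -/

theorem cluster {V : Type} [Fintype V] [DecidableEq V] (A : V → V → Prop) [DecidableRel A]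
    (s : Perm V) (J T T' S : Finset V) (p ε c k Θ' : ℕ) (hp : 1 ≤ p) (hε : 1 ≤ ε)
    (hTT : T' ⊆ T)
    (hT' : ∀ y ∈ T, y ∈ T' ↔ (J.filter (fun f => ¬ A y f)).card ≤ Θ')
    (hS : S = T'.image s)
    (hnest : ∀ y ∈ T, ∀ y' ∈ T, y ≠ y' →
      (p ≤ (J.filter (fun f => A y f ∧ ¬ A y' f)).card ∨
        ε ≤ (S.filter (fun v => A y v ∧ ¬ A y' v)).card) →
      (∀ f ∈ J, A y' f → A y f) ∧ (∀ v ∈ S, A y' v → A y v))
    (hself : ∀ y ∈ T', A y (s y))
    (hswap : ∀ y ∈ T', ∀ y' ∈ T', y ≠ y' → y' ≠ s (s y) → y ≠ s (s y') →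
      ¬ (A y (s y') ∧ A y' (s y)))
    (hdeg : ∀ v ∈ S, k + 4 ≤ (T.filter (fun y => A y v)).card)
    (hlow : 4 ≤ (T.filter (fun y => (J.filter (fun f => ¬ A y f)).card ≤ c)).card)
    (hΘ' : c + 2 * p ≤ Θ') (hk : 4 * ε + 3 ≤ k) : False := by
  have hstep := cluster_step A s J T T' S p ε c k Θ' hp hε hT' hS hnest hswap hdeg hlow hΘ' hk
  obtain ⟨b1, h1, -, e1⟩ := hstep ∅ (by simp)
  obtain ⟨b2, h2, n2, e2⟩ := hstep {b1} (by simp)
  obtain ⟨b3, h3, n3, e3⟩ := hstep {b1, b2} (Finset.card_le_two.trans (by norm_num))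
  obtain ⟨b4, h4, n4, e4⟩ := hstep {b1, b2, b3} Finset.card_le_three
  have hsS : ∀ y ∈ T', s y ∈ S := by
    intro y hy
    rw [hS]
    exact Finset.mem_image_of_mem _ hy
  simp only [Finset.mem_singleton, Finset.mem_insert, not_or] at n2 n3 n4
  have hX : ∀ y ∈ T', (∀ v ∈ S, A y v) → ∀ z ∈ T', (∀ v ∈ S, A z v) → y ≠ z →
      z = s (s y) ∨ y = s (s z) := by
    intro y hy hy' z hz hz' hne
    by_contra hc
    push Not at hc
    exact hswap y hy z hz hne hc.1 hc.2 ⟨hy' _ (hsS z hz), hz' _ (hsS y hy)⟩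
  have x2 := hX b1 h1 e1 b2 h2 e2 (Ne.symm n2)
  have x3 := hX b1 h1 e1 b3 h3 e3 (Ne.symm n3.1)
  have x4 := hX b1 h1 e1 b4 h4 e4 (Ne.symm n4.1)
  have hinj : ∀ x y, s (s x) = s (s y) → x = y := fun x y h => s.injective (s.injective h)
  rcases x2 with x2 | x2 <;> rcases x3 with x3 | x3
  · exact n3.2 (x3.trans x2.symm)
  · rcases x4 with x4 | x4
    · exact n4.2.1 (x4.trans x2.symm)
    · exact n4.2.2 (hinj _ _ (x4.symm.trans x3))
  · rcases x4 with x4 | x4
    · exact n4.2.2 (x4.trans x3.symm)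
    · exact n4.2.1 (hinj _ _ (x4.symm.trans x2))
  · exact n3.2 (hinj _ _ (x3.symm.trans x2))

end cl

end Pool.Agent.H10.SD
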