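import Mathlib
import Pool.Agent.H10.SD.M2
import Pool.Agent.H10.SD.M3
import Pool.Agent.H10.SD.M4

/-!
In a graph without an induced subdivided star and with a swap free Hamiltonian cycle no vertex sees
a large independent set.
-/

set_option linter.unusedSectionVars false

namespace Pool.Agent.H10.SD

open Equiv Equiv.Perm

theorem no_wild {V : Type} [Fintype V] [DecidableEq V] (G : SimpleGraph V)
    (p : ℕ) (hp : 1 ≤ p) (hG : SdFree p G) (s : Perm V) (hs : ∀ x, G.Adj x (s x))
    (hsw : SwapFree G s) (hdeg : ∀ v, 12 * p + 30 ≤ (G.neighborSet v).ncard) (a : V)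
    (J : Finset V) (hJ : ∀ x ∈ J, ∀ y ∈ J, ¬ G.Adj x y) (ha : ∀ f ∈ J, G.Adj a f)
    (hr : 34 * p + 45 ≤ J.card) : False := by
  classical
  let T : Finset V := Finset.univ.filter
    (fun y => (J.filter (fun f => ¬ G.Adj y f)).card ≤ 10 * p + 10)
  let T' : Finset V := Finset.univ.filter
    (fun y => (J.filter (fun f => ¬ G.Adj y f)).card ≤ 6 * p + 5)
  let S : Finset V := T'.image s
  have hT : ∀ y, y ∈ T ↔ (J.filter (fun f => ¬ G.Adj y f)).card ≤ 10 * p + 10 := by
    intro y
    simp only [T, Finset.mem_filter, Finset.mem_univ, true_and]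
  have hT' : ∀ y, y ∈ T' ↔ (J.filter (fun f => ¬ G.Adj y f)).card ≤ 6 * p + 5 := by
    intro y
    simp only [T', Finset.mem_filter, Finset.mem_univ, true_and]
  have hTT : T' ⊆ T := by
    intro y hy
    have := (hT' y).mp hy
    exact (hT y).mpr (by omega)
  have hcard : ∀ v, 12 * p + 30 ≤ (Finset.univ.filter (fun d => G.Adj v d)).card := by
    intro v
    have h1 := hdeg v
    have h2 : (G.neighborSet v).ncard = (Finset.univ.filter (fun d => G.Adj v d)).card := by
      rw [← Set.ncard_coe_finset]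
      congr 1
      ext x
      simp
    rwa [h2] at h1
  -- most neighbours of `s y` see most of what `y` sees
  have hmany : ∀ y, ∀ m, (J.filter (fun f => ¬ G.Adj y f)).card ≤ m →
      12 * p + 21 ≤ (Finset.univ.filter (fun d => G.Adj (s y) d ∧
        (J.filter (fun f => ¬ G.Adj d f)).card ≤ m + 4 * p + 5)).card := by
    intro y m hm
    have h1 := succ_nbrs G p hG s hs hsw J hJ y
    have h2 := hcard (s y)
    have h3 : (Finset.univ.filter (fun d => G.Adj (s y) d)) ⊆
        (Finset.univ.filter (fun d => G.Adj (s y) d ∧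
          (J.filter (fun f => ¬ G.Adj d f)).card ≤ m + 4 * p + 5)) ∪
        (Finset.univ.filter (fun d => G.Adj (s y) d ∧
          4 * p + 6 ≤ (J.filter (fun f => G.Adj y f ∧ ¬ G.Adj d f)).card)) := by
      intro d hd
      have hd' : G.Adj (s y) d := (Finset.mem_filter.mp hd).2
      rw [Finset.mem_union, Finset.mem_filter, Finset.mem_filter]
      by_cases hc : 4 * p + 6 ≤ (J.filter (fun f => G.Adj y f ∧ ¬ G.Adj d f)).card
      · exact Or.inr ⟨Finset.mem_univ _, hd', hc⟩
      · left
        refine ⟨Finset.mem_univ _, hd', ?_⟩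
        have h4 : J.filter (fun f => ¬ G.Adj d f) ⊆
            J.filter (fun f => ¬ G.Adj y f) ∪ J.filter (fun f => G.Adj y f ∧ ¬ G.Adj d f) := by
          intro f hf
          obtain ⟨hf1, hf2⟩ := Finset.mem_filter.mp hf
          rw [Finset.mem_union, Finset.mem_filter, Finset.mem_filter]
          by_cases hb : G.Adj y f
          · exact Or.inr ⟨hf1, hb, hf2⟩
          · exact Or.inl ⟨hf1, hb⟩
        have h5 := (Finset.card_le_card h4).trans (Finset.card_union_le _ _)
        omega
    have h4 := (Finset.card_le_card h3).trans (Finset.card_union_le _ _)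
    omega
  have ha0 : (J.filter (fun f => ¬ G.Adj a f)).card = 0 := by
    rw [Finset.card_eq_zero, Finset.filter_eq_empty_iff]
    intro f hf
    exact not_not.mpr (ha f hf)
  have hST : ∀ v ∈ S, v ∉ T := fun v hv =>
    S_not_T hG hs hsw hJ (Θ := 10 * p + 10) (Θ' := 6 * p + 5) (by omega) (by omega) hT hT' rfl v hv
  refine cluster G.Adj s J T T' S p (3 * p + 2) (4 * p + 5) (12 * p + 11) (6 * p + 5) hp (by omega)
    hTT (fun y _ => hT' y) rfl ?_ (fun y _ => hs y) ?_ ?_ ?_ (by omega) (by omega)
  · intro y hy y' hy' hne h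
    exact nested G p hG s hs hsw J hJ (10 * p + 10) (6 * p + 5) (by omega) (by omega) T T' S hT hT'
      rfl y y' hy hy' hne h
  · rintro y hy y' hy' h1 h2 h3 ⟨h4, h5⟩
    apply hsw y y' h1.symm _ h2 _ h3 h4 h5
    · rintro rfl
      exact hST _ (Finset.mem_image_of_mem _ hy) (hTT hy')
    · rintro rfl
      exact hST _ (Finset.mem_image_of_mem _ hy') (hTT hy)
  · intro v hv
    obtain ⟨y, hy, rfl⟩ := Finset.mem_image.mp hv
    have h1 := hmany y (6 * p + 5) ((hT' y).mp hy)
    have h2 : (Finset.univ.filter (fun d => G.Adj (s y) d ∧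
        (J.filter (fun f => ¬ G.Adj d f)).card ≤ 6 * p + 5 + 4 * p + 5)) ⊆
        T.filter (fun d => G.Adj d (s y)) := by
      intro d hd
      obtain ⟨_, hd1, hd2⟩ := Finset.mem_filter.mp hd
      exact Finset.mem_filter.mpr ⟨(hT d).mpr (by omega), hd1.symm⟩
    have h3 := Finset.card_le_card h2
    omega
  · have h1 := hmany a 0 (by omega)
    have h2 : (Finset.univ.filter (fun d => G.Adj (s a) d ∧
        (J.filter (fun f => ¬ G.Adj d f)).card ≤ 0 + 4 * p + 5)) ⊆
        T.filter (fun d => (J.filter (fun f => ¬ G.Adj d f)).card ≤ 4 * p + 5) := by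
      intro d hd
      obtain ⟨_, hd1, hd2⟩ := Finset.mem_filter.mp hd
      exact Finset.mem_filter.mpr ⟨(hT d).mpr (by omega), by omega⟩
    have h3 := Finset.card_le_card h2
    omega

end Pool.Agent.H10.SD
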