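import Mathlib
import Pool.Agent.H10.SD.M5
import Pool.Agent.H10.SF.E
import Pool.Agent.H10.SF.G

/-!
Hamiltonian graphs without an induced subdivided star.
-/

set_option linter.unusedSectionVars false

namespace Pool.Agent.H10.SD

open Equiv Equiv.Perm Pool.Agent.H10.SF

theorem two_of_swap {n : ℕ} [NeZero n] (G : SimpleGraph (Fin n)) (s : Perm (Fin n))
    (hs1 : ∀ x y, SameCycle s x y) (hn : 3 ≤ n) (hs : ∀ x, G.Adj x (s x)) (h : ¬ SwapFree G s) :
    ∃ F : SimpleGraph (Fin n), F ≤ G ∧ (∀ x, (F.neighborSet x).ncard = 2) ∧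
      Nat.card F.ConnectedComponent = 2 := by
  unfold SwapFree at h
  push Not at h
  obtain ⟨x, y, h1, h2, h3, h4, h5, h6, h7⟩ := h
  have hV : 3 ≤ Fintype.card (Fin n) := by rw [Fintype.card_fin]; exact hn
  have hfix := no_fix s hs1 hV
  have htwo := no_two s hs1 hV
  have hφx : (swap (s x) (s y) * s) x = s y := by rw [mul_apply, swap_apply_left]
  have hφy : (swap (s x) (s y) * s) y = s x := by rw [mul_apply, swap_apply_right]
  have hφk : ∀ k, k ≠ x → k ≠ y → (swap (s x) (s y) * s) k = s k := by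
    intro k hkx hky
    rw [mul_apply, swap_apply_of_ne_of_ne (s.injective.ne hkx) (s.injective.ne hky)]
  apply Pool.Agent.H47.TCF.exists_twoFactor G (swap (s x) (s y) * s) (Equiv.refl _)
  · intro k
    show G.Adj k ((swap (s x) (s y) * s) k)
    by_cases hkx : k = x
    · subst hkx
      rw [hφx]
      exact h6
    by_cases hky : k = y
    · subst hky
      rw [hφy]
      exact h7.1
    rw [hφk k hkx hky]
    exact hs k
  · intro k hk
    by_cases hkx : k = x
    · subst hkx
      rw [hφx] at hk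
      rw [hφk (s y) h4.symm (hfix y)] at hk
      exact h5 hk.symm
    by_cases hky : k = y
    · subst hky
      rw [hφy] at hk
      rw [hφk (s x) (hfix x) h2.symm] at hk
      exact h3 hk.symm
    rw [hφk k hkx hky] at hk
    by_cases hsx : s k = x
    · rw [hsx, hφx] at hk
      apply h5
      rw [hk, hsx]
    by_cases hsy : s k = y
    · rw [hsy, hφy] at hk
      apply h3
      rw [hk, hsy]
    rw [hφk (s k) hsx hsy] at hk
    exact htwo k hk
  · have hns := Pool.Agent.H47.TCF.nc_split (φ := s) (a := s x) (b := s y)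
      (s.injective.ne h1.symm) (hs1 _ _)
    rw [hns, Pool.Agent.H47.TCF.nc_eq_one hs1]

/-- A Hamiltonian cycle as a cyclic permutation. -/
theorem exists_cyclic_perm {n : ℕ} [NeZero n] (hn : 3 ≤ n) (G : SimpleGraph (Fin n))
    (hG : G.IsHamiltonian) :
    ∃ s : Perm (Fin n), (∀ x y, SameCycle s x y) ∧ ∀ x, G.Adj x (s x) := by
  obtain ⟨v, hv⟩ := Pool.Agent.H47.TCF.exists_cyclic hn G hG
  let s0 : Perm (Fin n) := v.symm.trans ((Pool.Agent.H47.TCF.nx n).trans v)
  have hs0 : ∀ k, s0 (v k) = v (k + 1) := by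
    intro k
    show v (v.symm (v k) + 1) = v (k + 1)
    rw [v.symm_apply_apply]
  have h0 : ∀ i : ℕ, (s0 ^ i) (v 0) = v (Fin.ofNat n i) := by
    intro i
    induction i with
    | zero =>
      have : Fin.ofNat n 0 = 0 := by apply Fin.ext; simp
      rw [this, pow_zero, one_apply]
    | succ i ih =>
      rw [pow_succ', mul_apply, ih, hs0]
      congr 1
      apply Fin.ext
      simp [Fin.val_add]
  have h1 : ∀ y, SameCycle s0 (v 0) y := by
    intro y
    refine ⟨(v.symm y).val, ?_⟩
    rw [zpow_natCast, h0]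
    have : Fin.ofNat n (v.symm y).val = v.symm y := by
      apply Fin.ext
      rw [Fin.val_ofNat, Nat.mod_eq_of_lt (v.symm y).isLt]
    rw [this, v.apply_symm_apply]
  refine ⟨s0, fun x y => (h1 x).symm.trans (h1 y), ?_⟩
  intro x
  have h2 := hv (v.symm x)
  rw [v.apply_symm_apply] at h2
  exact h2

/-- The positive theorem. -/
theorem two_of_sdFree {n : ℕ} [NeZero n] (G : SimpleGraph (Fin n)) (hG : G.IsHamiltonian)
    (p : ℕ) (hp : 1 ≤ p) (hfree : SdFree p G)
    (hdeg : ∀ v, 3 * (34 * p + 45 + 22).choose 22 * (34 * p + 45 + 10).choose 10 ≤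
      (G.neighborSet v).ncard) :
    ∃ F : SimpleGraph (Fin n), F ≤ G ∧ (∀ x, (F.neighborSet x).ncard = 2) ∧
      Nat.card F.ConnectedComponent = 2 := by
  have hc1 : 34 * p + 45 + 1 ≤ (34 * p + 45 + 22).choose 22 := by
    have h1 : (34 * p + 45 + 22).choose 22 = (34 * p + 45 + 22).choose (34 * p + 45) := by
      rw [Nat.choose_symm_add]
    have h2 : (34 * p + 45 + 1).choose (34 * p + 45) ≤
        (34 * p + 45 + 22).choose (34 * p + 45) :=
      Nat.choose_le_choose _ (by omega)
    rw [Nat.choose_succ_self_right] at h2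
    omega
  have hc2 : 1 ≤ (34 * p + 45 + 10).choose 10 := Nat.choose_pos (by omega)
  have hc3 : 12 * p + 30 ≤ 3 * (34 * p + 45 + 22).choose 22 * (34 * p + 45 + 10).choose 10 := by
    calc 12 * p + 30 ≤ 3 * (34 * p + 45 + 1) * 1 := by omega
      _ ≤ _ := Nat.mul_le_mul (Nat.mul_le_mul_left _ hc1) hc2
  by_cases hw : ∀ v, ∀ S : Finset (Fin n), (∀ x ∈ S, G.Adj v x) →
      (∀ x ∈ S, ∀ y ∈ S, ¬ G.Adj x y) → S.card < 34 * p + 45
  · obtain ⟨cl, h1, h2⟩ := exists_partition G (34 * p + 45) hw hdeg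
    exact two_of_partition G hG cl h1 h2
  · push Not at hw
    obtain ⟨a, J, ha, hJ, hr⟩ := hw
    have hn : 3 ≤ n := by
      have h1 := hdeg a
      have h2 : (G.neighborSet a).ncard ≤ (Set.univ : Set (Fin n)).ncard :=
        Set.ncard_le_ncard (Set.subset_univ _) (Set.finite_univ)
      rw [Set.ncard_univ, Nat.card_eq_fintype_card, Fintype.card_fin] at h2
      omega
    obtain ⟨s, hs1, hs⟩ := exists_cyclic_perm hn G hG
    by_cases hsw : SwapFree G s
    · exact absurd hsw (fun hsw => no_wild G p hp hfree s hs hsw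
        (fun v => hc3.trans (hdeg v)) a J hJ ha hr)
    · exact two_of_swap G s hs1 hn hs hsw

end Pool.Agent.H10.SD
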