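import Mathlib
import Pool.Agent.H52.TwoFacHyper

/-!
A gap structure with large sets `P v` has exponentially many points.
-/

set_option linter.unusedSectionVars false

namespace Pool.Agent.H10.SD

open H52TF

theorem const_count {V : Type} [Fintype V] [DecidableEq V] (P : Finset V) :
    (Finset.univ.filter (fun c : V → Bool => ∃ X : Bool, ∀ u ∈ P, c u = X)).card * 2 ^ P.card ≤
      2 * 2 ^ Fintype.card V := by
  classical
  have h1 : Fintype.card (Bool × (V → Bool)) = 2 * 2 ^ Fintype.card V := by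
    rw [Fintype.card_prod, Fintype.card_fun, Fintype.card_bool]
  have h2 : Fintype.card ({c : V → Bool // ∃ X : Bool, ∀ u ∈ P, c u = X} × (P → Bool)) =
      (Finset.univ.filter (fun c : V → Bool => ∃ X : Bool, ∀ u ∈ P, c u = X)).card * 2 ^ P.card := by
    rw [Fintype.card_prod, Fintype.card_fun, Fintype.card_bool, Fintype.card_coe,
      Fintype.card_subtype]
  rw [← h1, ← h2]
  let F : ({c : V → Bool // ∃ X : Bool, ∀ u ∈ P, c u = X} × (P → Bool)) → Bool × (V → Bool) :=
    fun x => (x.1.2.choose, fun u => if h : u ∈ P then x.2 ⟨u, h⟩ else x.1.1 u)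
  apply Fintype.card_le_of_injective F
  rintro ⟨⟨c, hc⟩, d⟩ ⟨⟨c', hc'⟩, d'⟩ h
  have hX : hc.choose = hc'.choose := congrArg Prod.fst h
  have hf : ∀ u, (if h : u ∈ P then d ⟨u, h⟩ else c u) = (if h : u ∈ P then d' ⟨u, h⟩ else c' u) :=
    fun u => congrFun (congrArg Prod.snd h) u
  have hd : d = d' := by
    funext u
    have := hf u.1
    simpa [u.2] using this
  have hcc : c = c' := by
    funext u
    by_cases hu : u ∈ P
    · rw [hc.choose_spec u hu, hc'.choose_spec u hu, hX]
    · have := hf u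
      simpa [hu] using this
  subst hd
  subst hcc
  rfl

theorem two_pow_le_card {V : Type} [Fintype V] [DecidableEq V] (S : GapStr V) (k : ℕ)
    (hk : ∀ v, k ≤ (S.P v).card) : 2 ^ (k - 1) ≤ Fintype.card V := by
  classical
  obtain ⟨v0, -⟩ := S.inv (fun _ => true)
  have hN : 0 < Fintype.card V := Fintype.card_pos_iff.2 ⟨v0⟩
  have hcov : (Finset.univ : Finset (V → Bool)) ⊆ Finset.univ.biUnion
      (fun v => Finset.univ.filter (fun c : V → Bool => ∃ X : Bool, ∀ u ∈ S.P v, c u = X)) := by
    intro c _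
    obtain ⟨v, X, h1, -⟩ := S.inv c
    rw [Finset.mem_biUnion]
    exact ⟨v, Finset.mem_univ _, by simp only [Finset.mem_filter, Finset.mem_univ, true_and]; exact ⟨X, h1⟩⟩
  have h1 : 2 ^ Fintype.card V ≤ ∑ v, (Finset.univ.filter
      (fun c : V → Bool => ∃ X : Bool, ∀ u ∈ S.P v, c u = X)).card := by
    have h2 := (Finset.card_le_card hcov).trans Finset.card_biUnion_le
    rwa [Finset.card_univ, Fintype.card_fun, Fintype.card_bool] at h2
  have h2 : 2 ^ Fintype.card V * 2 ^ k ≤ Fintype.card V * (2 * 2 ^ Fintype.card V) := by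
    calc 2 ^ Fintype.card V * 2 ^ k ≤ (∑ v, (Finset.univ.filter
        (fun c : V → Bool => ∃ X : Bool, ∀ u ∈ S.P v, c u = X)).card) * 2 ^ k :=
          Nat.mul_le_mul_right _ h1
      _ = ∑ v, (Finset.univ.filter
        (fun c : V → Bool => ∃ X : Bool, ∀ u ∈ S.P v, c u = X)).card * 2 ^ k := by
          rw [Finset.sum_mul]
      _ ≤ ∑ _v : V, 2 * 2 ^ Fintype.card V := by
          apply Finset.sum_le_sum
          intro v _
          exact (Nat.mul_le_mul_left _ (Nat.pow_le_pow_right (by norm_num) (hk v))).trans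
            (const_count (S.P v))
      _ = Fintype.card V * (2 * 2 ^ Fintype.card V) := by
          rw [Finset.sum_const, Finset.card_univ, smul_eq_mul]
  have h3 : 2 ^ k ≤ 2 * Fintype.card V := by
    have h4 : 2 ^ Fintype.card V * 2 ^ k ≤ 2 ^ Fintype.card V * (2 * Fintype.card V) := by
      calc 2 ^ Fintype.card V * 2 ^ k ≤ Fintype.card V * (2 * 2 ^ Fintype.card V) := h2
        _ = 2 ^ Fintype.card V * (2 * Fintype.card V) := by ring
    exact Nat.le_of_mul_le_mul_left h4 (by positivity)
  rcases k with _ | k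
  · simp only [Nat.zero_sub, pow_zero]
    exact hN
  · rw [pow_succ] at h3
    simp only [Nat.add_sub_cancel]
    omega

end Pool.Agent.H10.SD
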