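import Mathlib
import Pool.Agent.H10.SD.Gap2
import Pool.Agent.H10.SF.Low

/-!
Examples between the incidence graph and the graph of `H52TF.gr`.
-/

set_option linter.unusedSectionVars false

namespace Pool.Agent.H10.SD

open SimpleGraph H52TF Pool.Agent.H10.SF

/-- Transport to `Fin n` with an isomorphism. -/
theorem transfer_iso {W : Type} [Fintype W] [DecidableEq W] {n : ℕ} (hn : Fintype.card W = n)
    (G : SimpleGraph W) (k : ℕ) (hH : G.IsHamiltonian)
    (hd : ∀ v, k ≤ (G.neighborSet v).ncard) (hno : ¬ TwoTwo G) (hn1 : n ≠ 1) :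
    ∃ G' : SimpleGraph (Fin n), Nonempty (G' ≃g G) ∧ G'.IsHamiltonian ∧
      (∀ v, k ≤ (G'.neighborSet v).ncard) ∧ ¬ TwoTwo G' := by
  let e : W ≃ Fin n := Fintype.equivFinOfCardEq hn
  let G' : SimpleGraph (Fin n) := G.comap e.symm
  have hadj : ∀ a b, G'.Adj a b ↔ G.Adj (e.symm a) (e.symm b) := fun a b => Iff.rfl
  refine ⟨G', ⟨⟨e.symm, Iff.rfl⟩⟩, ?_, ?_, ?_⟩
  · intro _
    obtain ⟨a, p, hp⟩ := hH (by rw [hn]; exact hn1)
    let f : G →g G' := ⟨e, by
      intro a b h
      rw [hadj, e.symm_apply_apply, e.symm_apply_apply]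
      exact h⟩
    exact ⟨_, p.map f, hp.map e.bijective⟩
  · intro v
    have h1 := hd (e.symm v)
    have h2 : G'.neighborSet v = e '' (G.neighborSet (e.symm v)) := by
      ext x
      rw [SimpleGraph.mem_neighborSet, hadj]
      constructor
      · intro h
        exact ⟨e.symm x, h, e.apply_symm_apply x⟩
      · rintro ⟨y, hy, rfl⟩
        rw [e.symm_apply_apply]
        exact hy
    rw [h2, Set.ncard_image_of_injective _ e.injective]
    exact h1
  · rintro ⟨F', hF', hdeg, hcc⟩
    apply hno
    refine ⟨F'.comap e, ?_, ?_, ?_⟩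
    · intro a b h
      have h1 : G'.Adj (e a) (e b) := hF' h
      rw [hadj, e.symm_apply_apply, e.symm_apply_apply] at h1
      exact h1
    · intro v
      rw [← hdeg (e v)]
      have h2 : F'.neighborSet (e v) = e '' ((F'.comap e).neighborSet v) := by
        ext x
        rw [SimpleGraph.mem_neighborSet]
        constructor
        · intro h
          refine ⟨e.symm x, ?_, e.apply_symm_apply x⟩
          rw [SimpleGraph.mem_neighborSet, SimpleGraph.comap_adj, e.apply_symm_apply]
          exact h
        · rintro ⟨y, hy, rfl⟩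
          exact hy
      rw [h2, Set.ncard_image_of_injective _ e.injective]
    · rw [← hcc]
      exact Nat.card_congr (SimpleGraph.Iso.comap e F').connectedComponentEquiv

variable {X : Type}

/-- A graph which contains the incidence graph is Hamiltonian. -/
theorem ham_of_incidence [Fintype X] [DecidableEq X] (S : GapStr (Option X))
    (G : SimpleGraph (Wt X 0))
    (hsub : ∀ b a, (gr S 0).Adj (Sum.inl b) (Sum.inr a) → G.Adj (Sum.inl b) (Sum.inr a))
    (h1 : 1 ≤ Fintype.card X) : G.IsHamiltonian := by
  apply isHamiltonian_of_trans G (succMap S 0) (succMap_trans S 0)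
  · intro a
    have h := gr_succ S 0 a
    match a, h with
    | Sum.inl b, h =>
      rcases hn : S.next b with _ | x
      · rw [succMap_none S 0 hn] at h ⊢
        exact hsub _ _ h
      · rw [succMap_some S 0 hn] at h ⊢
        exact hsub _ _ h
    | Sum.inr (Sum.inl x), h => exact (hsub _ _ h.symm).symm
    | Sum.inr (Sum.inr i), h =>
      have hi : ¬ i.val < 0 := by omega
      simp only [succMap] at h ⊢
      rw [dif_neg hi] at h ⊢
      exact (hsub _ _ h.symm).symm
  · simp only [Fintype.card_sum, Fintype.card_option, Fintype.card_fin]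
    omega

theorem gr_adj_inr (S : GapStr (Option X)) (a a' : X ⊕ Fin 1) (h : a ≠ a') :
    (gr S 0).Adj (Sum.inr a) (Sum.inr a') := by
  match a, a', h with
  | Sum.inl x, Sum.inl y, h => exact fun h' => h (by rw [h'])
  | Sum.inl _, Sum.inr _, _ => trivial
  | Sum.inr _, Sum.inl _, _ => trivial
  | Sum.inr i, Sum.inr i', h =>
    have hii : i = i' := by
      apply Fin.ext
      have h1 := i.isLt
      have h2 := i'.isLt
      omega
    exact absurd (by rw [hii]) h

/-- Induced subgraphs of `gr S 0` are split. -/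
theorem split_of_embedding (S : GapStr (Option X)) {W : Type} {H : SimpleGraph W}
    (f : H ↪g gr S 0) : ∃ K : Set W, (∀ x ∈ K, ∀ y ∈ K, x ≠ y → H.Adj x y) ∧
      ∀ x, x ∉ K → ∀ y, y ∉ K → ¬ H.Adj x y := by
  refine ⟨{w | ∃ a, f w = Sum.inr a}, ?_, ?_⟩
  · rintro x ⟨a, ha⟩ y ⟨b, hb⟩ hxy
    rw [← f.map_adj_iff, ha, hb]
    have hab : a ≠ b := by
      rintro rfl
      exact hxy (f.injective (ha.trans hb.symm))
    exact gr_adj_inr S a b hab
  · intro x hx y hy hadj
    rw [← f.map_adj_iff] at hadj
    rcases hfx : f x with a | a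
    · rcases hfy : f y with b | b
      · rw [hfx, hfy] at hadj
        exact hadj
      · exact hy ⟨b, hfy⟩
    · exact hx ⟨a, hfx⟩

/-- The triangle-free graph: edges on the vertex side only between the two colour classes and only
for vertices without a common hyperedge. -/
def triFree (S : GapStr (Option X)) (Y : Set (X ⊕ Fin 1)) : SimpleGraph (Wt X 0) where
  Adj u v := (gr S 0).Adj u v ∧ ∀ a a', u = Sum.inr a → v = Sum.inr a' →
    (a ∈ Y ↔ a' ∉ Y) ∧ ∀ b, ¬ ((gr S 0).Adj (Sum.inl b) (Sum.inr a) ∧
      (gr S 0).Adj (Sum.inl b) (Sum.inr a'))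
  symm := ⟨by
    rintro u v ⟨h1, h2⟩
    refine ⟨h1.symm, ?_⟩
    intro a a' hu hv
    obtain ⟨h3, h4⟩ := h2 a' a hv hu
    refine ⟨?_, fun b hb => h4 b hb.symm⟩
    tauto⟩
  loopless := ⟨fun u h => (gr S 0).loopless.irrefl u h.1⟩

theorem triFree_le (S : GapStr (Option X)) (Y : Set (X ⊕ Fin 1)) : triFree S Y ≤ gr S 0 :=
  fun _ _ h => h.1

theorem triFree_incidence (S : GapStr (Option X)) (Y : Set (X ⊕ Fin 1)) (b : Option X)
    (a : X ⊕ Fin 1) (h : (gr S 0).Adj (Sum.inl b) (Sum.inr a)) :
    (triFree S Y).Adj (Sum.inl b) (Sum.inr a) :=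
  ⟨h, fun _ _ h' => absurd h' (by simp)⟩

theorem triFree_noTriangle (S : GapStr (Option X)) (Y : Set (X ⊕ Fin 1)) (u v w : Wt X 0)
    (h1 : (triFree S Y).Adj u v) (h2 : (triFree S Y).Adj v w) (h3 : (triFree S Y).Adj u w) :
    False := by
  match u, v, w, h1, h2, h3 with
  | Sum.inl _, Sum.inl _, _, h1, _, _ => exact h1.1
  | _, Sum.inl _, Sum.inl _, _, h2, _ => exact h2.1
  | Sum.inl _, _, Sum.inl _, _, _, h3 => exact h3.1
  | Sum.inl b, Sum.inr a, Sum.inr a', h1, h2, h3 => exact (h2.2 a a' rfl rfl).2 b ⟨h1.1, h3.1⟩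
  | Sum.inr a, Sum.inl b, Sum.inr a', h1, h2, h3 =>
    exact (h3.2 a a' rfl rfl).2 b ⟨h1.1.symm, h2.1⟩
  | Sum.inr a, Sum.inr a', Sum.inl b, h1, h2, h3 =>
    exact (h1.2 a a' rfl rfl).2 b ⟨h3.1.symm, h2.1.symm⟩
  | Sum.inr a, Sum.inr a', Sum.inr a'', h1, h2, h3 =>
    have e1 := (h1.2 a a' rfl rfl).1
    have e2 := (h2.2 a' a'' rfl rfl).1
    have e3 := (h3.2 a a'' rfl rfl).1
    tauto

/-- Minimum degree of the triangle-free graph. -/
theorem triFree_minDegree [Fintype X] [DecidableEq X] (S : GapStr (Option X)) (K k : ℕ)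
    (hkK : k ≤ K) (h1 : ∀ v, K + 1 ≤ (S.P v).card) (h2 : ∀ v, (S.P v).card ≤ 2 * (K + 1))
    (Y : Finset (X ⊕ Fin 1)) (hY1 : K * (2 * K + 3) + k ≤ Y.card)
    (hY2 : K * (2 * K + 3) + k ≤ (Finset.univ \ Y : Finset (X ⊕ Fin 1)).card) (v : Wt X 0) :
    k ≤ ((triFree S (Y : Set (X ⊕ Fin 1))).neighborSet v).ncard := by
  classical
  set G := triFree S (Y : Set (X ⊕ Fin 1)) with hG
  have hfin : ∀ v, (G.neighborSet v).Finite := fun v => Set.toFinite _
  match v with
  | Sum.inl b =>
    have hinj : Function.Injective (fun x : X => (Sum.inr (Sum.inl x) : Wt X 0)) := by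
      intro x y h
      simpa using h
    have hsub : (((Finset.univ.filter (fun x : X => some x ∈ S.P b)).image
        (fun x : X => (Sum.inr (Sum.inl x) : Wt X 0)) : Finset (Wt X 0)) : Set (Wt X 0)) ⊆
        G.neighborSet (Sum.inl b) := by
      intro a ha
      rw [Finset.mem_coe, Finset.mem_image] at ha
      obtain ⟨x, hx, rfl⟩ := ha
      rw [SimpleGraph.mem_neighborSet]
      apply triFree_incidence
      change some x ∈ S.P b
      simpa using hx
    have h3 := Set.ncard_le_ncard hsub (hfin _)
    rw [Set.ncard_coe_finset, Finset.card_image_of_injective _ hinj] at h3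
    have h4 : (S.P b).card ≤ (Finset.univ.filter (fun x : X => some x ∈ S.P b)).card + 1 := by
      have h5 : S.P b ⊆ insert none ((Finset.univ.filter (fun x : X => some x ∈ S.P b)).image
          some) := by
        intro u hu
        rcases u with _ | x
        · exact Finset.mem_insert_self _ _
        · apply Finset.mem_insert_of_mem
          rw [Finset.mem_image]
          exact ⟨x, by simpa using hu, rfl⟩
      calc (S.P b).card ≤ _ := Finset.card_le_card h5
        _ ≤ _ := Finset.card_insert_le _ _
        _ ≤ _ := Nat.add_le_add_right Finset.card_image_le _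
    have h5 := h1 b
    omega
  | Sum.inr a =>
    let E : Finset (Option X) := Finset.univ.filter
      (fun b => (gr S 0).Adj (Sum.inl b) (Sum.inr a))
    by_cases hE : k ≤ E.card
    · have hinj : Function.Injective (fun b : Option X => (Sum.inl b : Wt X 0)) := by
        intro x y h
        simpa using h
      have hsub : ((E.image (fun b : Option X => (Sum.inl b : Wt X 0)) : Finset (Wt X 0)) :
          Set (Wt X 0)) ⊆ G.neighborSet (Sum.inr a) := by
        intro c hc
        rw [Finset.mem_coe, Finset.mem_image] at hc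
        obtain ⟨b, hb, rfl⟩ := hc
        rw [SimpleGraph.mem_neighborSet]
        exact (triFree_incidence S _ b a (Finset.mem_filter.mp hb).2).symm
      have h3 := Set.ncard_le_ncard hsub (hfin _)
      rw [Set.ncard_coe_finset, Finset.card_image_of_injective _ hinj] at h3
      omega
    · push Not at hE
      -- vertices with a common hyperedge
      let N : Option X → Finset (X ⊕ Fin 1) := fun b => Finset.univ.filter
        (fun a' => (gr S 0).Adj (Sum.inl b) (Sum.inr a'))
      have hN : ∀ b, (N b).card ≤ 2 * K + 3 := by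
        intro b
        have h3 : N b ⊆ insert (Sum.inr 0)
            (((S.P b).image (fun u : Option X => u.elim (Sum.inr 0) Sum.inl)) :
              Finset (X ⊕ Fin 1)) := by
          intro c hc
          have hc' := (Finset.mem_filter.mp hc).2
          match c, hc' with
          | Sum.inl x, hc' =>
            apply Finset.mem_insert_of_mem
            rw [Finset.mem_image]
            exact ⟨some x, hc', rfl⟩
          | Sum.inr i, _ =>
            have hi : i = 0 := by
              apply Fin.ext
              have := i.isLt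
              simp
            rw [hi]
            exact Finset.mem_insert_self _ _
        have h4 := h2 b
        calc (N b).card ≤ _ := Finset.card_le_card h3
          _ ≤ _ := Finset.card_insert_le _ _
          _ ≤ (S.P b).card + 1 := Nat.add_le_add_right Finset.card_image_le _
          _ ≤ _ := by omega
      let B : Finset (X ⊕ Fin 1) := E.biUnion N
      have hB : B.card ≤ K * (2 * K + 3) := by
        calc B.card ≤ ∑ b ∈ E, (N b).card := Finset.card_biUnion_le
          _ ≤ ∑ b ∈ E, (2 * K + 3) := Finset.sum_le_sum (fun b _ => hN b)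
          _ = E.card * (2 * K + 3) := by rw [Finset.sum_const, smul_eq_mul]
          _ ≤ K * (2 * K + 3) := Nat.mul_le_mul_right _ (by omega)
      -- the other side
      obtain ⟨Z, hZ1, hZ2⟩ : ∃ Z : Finset (X ⊕ Fin 1), K * (2 * K + 3) + k ≤ Z.card ∧
          ∀ c ∈ Z, (a ∈ (Y : Set (X ⊕ Fin 1)) ↔ c ∉ (Y : Set (X ⊕ Fin 1))) := by
        by_cases haY : a ∈ Y
        · refine ⟨Finset.univ \ Y, hY2, ?_⟩
          intro c hc
          have := (Finset.mem_sdiff.mp hc).2
          simp [haY, this]
        · refine ⟨Y, hY1, ?_⟩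
          intro c hc
          simp [haY, hc]
      have hsub : (((Z \ B).image (fun c => (Sum.inr c : Wt X 0)) : Finset (Wt X 0)) :
          Set (Wt X 0)) ⊆ G.neighborSet (Sum.inr a) := by
        intro c hc
        rw [Finset.mem_coe, Finset.mem_image] at hc
        obtain ⟨a', ha', rfl⟩ := hc
        obtain ⟨ha1, ha2⟩ := Finset.mem_sdiff.mp ha'
        rw [SimpleGraph.mem_neighborSet]
        have hcol := hZ2 a' ha1
        have hne : a ≠ a' := by
          rintro rfl
          tauto
        refine ⟨gr_adj_inr S a a' hne, ?_⟩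
        · intro c c' hc hc'
          have e1 : a = c := Sum.inr_injective hc
          have e2 : a' = c' := Sum.inr_injective hc'
          rw [← e1, ← e2]
          refine ⟨hcol, ?_⟩
          rintro b ⟨hb1, hb2⟩
          apply ha2
          rw [Finset.mem_biUnion]
          exact ⟨b, Finset.mem_filter.mpr ⟨Finset.mem_univ _, hb1⟩,
            Finset.mem_filter.mpr ⟨Finset.mem_univ _, hb2⟩⟩
      have h3 := Set.ncard_le_ncard hsub (hfin _)
      rw [Set.ncard_coe_finset, Finset.card_image_of_injective _ Sum.inr_injective] at h3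
      have h4 := Finset.le_card_sdiff B Z
      omega

end Pool.Agent.H10.SD
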