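import Mathlib
import Pool.Agent.H10.SD.Neg
import Pool.Agent.H10.SD.N1

/-!
Split examples and triangle-free examples; connected split triangle-free graphs are double stars.
-/

set_option linter.unusedSectionVars false

namespace Pool.Agent.H10.SD

open SimpleGraph H52TF Pool.Agent.H10.SF

theorem num_bound (k : ℕ) : (k + 12) * (2 * (k + 12) + 3) + k ≤ 2 ^ (k + 11) := by
  induction k with
  | zero => norm_num
  | succ k ih =>
    have h : 2 ^ (k + 1 + 11) = 2 * 2 ^ (k + 11) := by ring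
    rw [h]
    nlinarith

/-- Hamiltonian split graphs of large minimum degree without a 2-factor with two cycles. -/
theorem split_example (k : ℕ) :
    ∃ (n : ℕ) (G : SimpleGraph (Fin n)), G.IsHamiltonian ∧ (∀ v, k ≤ (G.neighborSet v).ncard) ∧
      ¬ TwoTwo G ∧ ∀ (W : Type) (H : SimpleGraph W), Nonempty (H ↪g G) →
        ∃ K : Set W, (∀ x ∈ K, ∀ y ∈ K, x ≠ y → H.Adj x y) ∧
          ∀ x, x ∉ K → ∀ y, y ∉ K → ¬ H.Adj x y := by
  obtain ⟨Y, i1, i2, S, _, hodd, hk, _⟩ := exists_gapStr2 (k + 2) (by omega)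
  have hY : 1 ≤ Fintype.card Y := by
    have h1 := hk none
    have h2 := Finset.card_le_univ (S.P none)
    rw [Fintype.card_option] at h2
    omega
  obtain ⟨G, ⟨e⟩, h1, h2, h3⟩ := transfer_iso (card_Wt (X := Y) 0) (gr S 0) k
    (gr_isHamiltonian S 0 hY) (gr_minDegree S 0 k (fun v => by have := hk v; omega))
    (by
      rintro ⟨F, hF, hdeg, hcc⟩
      exact no_two S 0 hodd hY F hF hdeg hcc)
    (by rw [Fintype.card_option]; omega)
  refine ⟨_, G, h1, h2, h3, ?_⟩
  rintro W H ⟨f⟩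
  exact split_of_embedding S (e.toEmbedding.comp f)

/-- Hamiltonian triangle-free graphs of large minimum degree without a 2-factor with two
cycles. -/
theorem triangleFree_example (k : ℕ) :
    ∃ (n : ℕ) (G : SimpleGraph (Fin n)), G.IsHamiltonian ∧ (∀ v, k ≤ (G.neighborSet v).ncard) ∧
      ¬ TwoTwo G ∧ ∀ (W : Type) (H : SimpleGraph W), Nonempty (H ↪g G) →
        ∀ x y z, H.Adj x y → H.Adj y z → H.Adj x z → False := by
  obtain ⟨Y, i1, i2, S, _, hodd, hk, hk2⟩ := exists_gapStr2 (k + 12 + 1) (by omega)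
  have hY : 1 ≤ Fintype.card Y := by
    have h1 := hk none
    have h2 := Finset.card_le_univ (S.P none)
    rw [Fintype.card_option] at h2
    omega
  have hN := two_pow_le_card S (k + 12 + 1) hk
  have hN1 : k + 12 + 1 - 1 = (k + 11) + 1 := by omega
  rw [hN1, pow_succ] at hN
  have hnum := num_bound k
  have hcard : Fintype.card (Y ⊕ Fin 1) = Fintype.card (Option Y) := by
    rw [Fintype.card_sum, Fintype.card_fin, Fintype.card_option]
  obtain ⟨Z, _, hZ⟩ := Finset.exists_subset_card_eq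
    (s := (Finset.univ : Finset (Y ⊕ Fin 1))) (n := Fintype.card (Option Y) / 2) (by
      rw [Finset.card_univ, hcard]
      omega)
  have hZ2 : (Finset.univ \ Z : Finset (Y ⊕ Fin 1)).card =
      Fintype.card (Option Y) - Fintype.card (Option Y) / 2 := by
    rw [Finset.card_sdiff_of_subset (Finset.subset_univ _), Finset.card_univ, hcard, hZ]
  obtain ⟨G, ⟨e⟩, h1, h2, h3⟩ := transfer_iso (card_Wt (X := Y) 0)
    (triFree S (Z : Set (Y ⊕ Fin 1))) k
    (ham_of_incidence S _ (triFree_incidence S _) hY)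
    (triFree_minDegree S (k + 12) k (by omega) hk hk2 Z (by omega) (by omega))
    (by
      rintro ⟨F, hF, hdeg, hcc⟩
      exact no_two S 0 hodd hY F (hF.trans (triFree_le S _)) hdeg hcc)
    (by rw [Fintype.card_option]; omega)
  refine ⟨_, G, h1, h2, h3, ?_⟩
  rintro W H ⟨f⟩ x y z hxy hyz hxz
  let g : H ↪g triFree S (Z : Set (Y ⊕ Fin 1)) := e.toEmbedding.comp f
  exact triFree_noTriangle S _ (g x) (g y) (g z) (g.map_adj_iff.mpr hxy) (g.map_adj_iff.mpr hyz)
    (g.map_adj_iff.mpr hxz)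

/-- A split graph without triangles and with an edge is a double star plus isolated vertices. -/
theorem doubleStar_of_split {W : Type} (H : SimpleGraph W)
    (hs : ∃ K : Set W, (∀ x ∈ K, ∀ y ∈ K, x ≠ y → H.Adj x y) ∧
      ∀ x, x ∉ K → ∀ y, y ∉ K → ¬ H.Adj x y)
    (ht : ∀ x y z, H.Adj x y → H.Adj y z → H.Adj x z → False) :
    (∀ x y, ¬ H.Adj x y) ∨ ∃ u v : W, H.Adj u v ∧
      (∀ x y, H.Adj x y → x = u ∨ x = v ∨ y = u ∨ y = v) ∧ ∀ x, ¬ (H.Adj u x ∧ H.Adj v x) := by
  by_cases hne : ∀ x y, ¬ H.Adj x y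
  · exact Or.inl hne
  right
  push Not at hne
  obtain ⟨K, hK1, hK2⟩ := hs
  obtain ⟨a, b, hab⟩ := hne
  by_cases h2 : ∃ u ∈ K, ∃ v ∈ K, u ≠ v
  · obtain ⟨u, hu, v, hv, huv⟩ := h2
    have hadj := hK1 u hu v hv huv
    refine ⟨u, v, hadj, ?_, ?_⟩
    · intro x y hxy
      by_contra hcon
      push Not at hcon
      obtain ⟨h1, h2, h3, h4⟩ := hcon
      by_cases hx : x ∈ K
      · exact ht x u v (hK1 x hx u hu h1) hadj (hK1 x hx v hv h2)
      · by_cases hy : y ∈ K
        · exact ht y u v (hK1 y hy u hu h3) hadj (hK1 y hy v hv h4)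
        · exact hK2 x hx y hy hxy
    · rintro x ⟨h1, h2⟩
      exact ht u v x hadj h2 h1
  · push Not at h2
    -- at most one vertex in `K`
    have key : ∀ u v, u ∈ K → H.Adj u v → ∃ u v : W, H.Adj u v ∧
        (∀ x y, H.Adj x y → x = u ∨ x = v ∨ y = u ∨ y = v) ∧
        ∀ x, ¬ (H.Adj u x ∧ H.Adj v x) := by
      intro u v hu huv
      refine ⟨u, v, huv, ?_, ?_⟩
      · intro x y hxy
        by_cases hx : x ∈ K
        · exact Or.inl (h2 x hx u hu)
        · by_cases hy : y ∈ K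
          · exact Or.inr (Or.inr (Or.inl (h2 y hy u hu)))
          · exact absurd hxy (hK2 x hx y hy)
      · rintro x ⟨h1, h3⟩
        exact ht u v x huv h3 h1
    by_cases ha : a ∈ K
    · exact key a b ha hab
    · by_cases hb : b ∈ K
      · exact key b a hb hab.symm
      · exact absurd hab (hK2 a ha b hb)

end Pool.Agent.H10.SD
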